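import Pool.Agent.R894.RM.Defs
import Pool.Agent.Helper392.Mey.PL

set_option autoImplicit false

open MeasureTheory Set
open scoped ENNReal

namespace Pool.Agent.R894.RM

/-- multiplicative midpoint Brunn-Minkowski inequality -/
theorem bm : S_BM := by
  intro κ _ A B C hA hB hC h
  classical
  let e : κ ≃ Fin (Fintype.card κ) := Fintype.equivFin κ
  have hmp := volume_measurePreserving_piCongrLeft (fun _ : κ => ℝ) e.symm
  have hap : ∀ (x : Fin (Fintype.card κ) → ℝ) (k : κ),
      (MeasurableEquiv.piCongrLeft (fun _ : κ => ℝ) e.symm) x k = x (e k) := by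
    intro x k
    have := Equiv.piCongrLeft_apply_apply (fun _ : κ => ℝ) e.symm x (e k)
    simpa [MeasurableEquiv.coe_piCongrLeft] using this
  rw [← hmp.measure_preimage hA.nullMeasurableSet, ← hmp.measure_preimage hB.nullMeasurableSet,
    ← hmp.measure_preimage hC.nullMeasurableSet]
  refine Pool.Agent.Helper392.Mey.PL.bm_pi (hmp.measurable hA) (hmp.measurable hB)
    (hmp.measurable hC) ?_
  intro a ha b hb
  have := h _ ha _ hb
  rw [mem_preimage]
  convert this using 1
  ext k
  rw [hap, hap, hap]

end Pool.Agent.R894.RM
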