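import Pool.Agent.R894.RM.Defs

/-! # Consequences of the Brunn-Minkowski inequality: the core estimate -/

set_option autoImplicit false

open MeasureTheory Set
open scoped ENNReal

namespace Pool.Agent.R894.RM

namespace CORE

variable {κ : Type} [Fintype κ]

theorem meas_lt (i : κ) (c : ℝ) : MeasurableSet {d : κ → ℝ | d i < c} :=
  measurableSet_lt (measurable_pi_apply i) measurable_const

theorem meas_ge (i : κ) (c : ℝ) : MeasurableSet {d : κ → ℝ | c ≤ d i} :=
  measurableSet_le measurable_const (measurable_pi_apply i)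

theorem finite_of_sub {M : Set (κ → ℝ)} (hM : ∀ d ∈ M, ∀ i, 0 < d i ∧ d i ≤ 2) :
    volume M ≠ ∞ := by
  have h1 : M ⊆ Set.pi univ fun _ : κ => Icc (0 : ℝ) 2 := by
    intro d hd j _
    exact ⟨(hM d hd j).1.le, (hM d hd j).2⟩
  refine ne_top_of_le_ne_top ?_ (measure_mono h1)
  exact (isCompact_univ_pi fun _ => isCompact_Icc).measure_lt_top.ne

theorem slab {M : Set (κ → ℝ)} (hM : ∀ d ∈ M, ∀ i, 0 < d i ∧ d i ≤ 2) (i : κ) :
    ∃ C : ℝ, 0 ≤ C ∧ ∀ a b : ℝ, a ≤ b → volume.real (M ∩ {d | a ≤ d i ∧ d i < b}) ≤ C * (b - a) := by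
  classical
  let Cn : ℝ≥0∞ := ∏ j ∈ Finset.univ.erase i, volume (Icc (0 : ℝ) 2)
  have hCn : Cn ≠ ∞ := by
    refine (ENNReal.prod_lt_top fun j _ => ?_).ne
    rw [Real.volume_Icc]; exact ENNReal.ofReal_lt_top
  refine ⟨Cn.toReal, ENNReal.toReal_nonneg, fun a b hab => ?_⟩
  have h1 : M ∩ {d | a ≤ d i ∧ d i < b} ⊆
      Set.pi univ fun j : κ => if j = i then Ico a b else Icc (0 : ℝ) 2 := by
    rintro d ⟨hd, hd2⟩ j _
    by_cases hj : j = i
    · simp only [hj, if_true]; exact hd2
    · simp only [hj, if_false]; exact ⟨(hM d hd j).1.le, (hM d hd j).2⟩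
  have h2 : volume (Set.pi univ fun j : κ => if j = i then Ico a b else Icc (0 : ℝ) 2)
      = ENNReal.ofReal (b - a) * Cn := by
    rw [volume_pi_pi, ← Finset.mul_prod_erase _ _ (Finset.mem_univ i)]
    congr 1
    · simp
    · refine Finset.prod_congr rfl fun j hj => ?_
      rw [if_neg (Finset.ne_of_mem_erase hj)]
  have h3 := measure_mono (μ := volume) h1
  rw [h2] at h3
  unfold Measure.real
  calc (volume (M ∩ {d | a ≤ d i ∧ d i < b})).toReal ≤ (ENNReal.ofReal (b - a) * Cn).toReal :=
        ENNReal.toReal_mono (ENNReal.mul_ne_top ENNReal.ofReal_ne_top hCn) h3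
    _ = Cn.toReal * (b - a) := by
        rw [ENNReal.toReal_mul, ENNReal.toReal_ofReal (by linarith), mul_comm]

/-- real form of BM -/
theorem bm_real (h : S_BM) {A B C M : Set (κ → ℝ)} (hA : MeasurableSet A) (hB : MeasurableSet B)
    (hC : MeasurableSet C) (hM : volume M ≠ ∞) (hAM : A ⊆ M) (hBM : B ⊆ M) (hCM : C ⊆ M)
    (hmid : ∀ a ∈ A, ∀ b ∈ B, (fun i => (a i + b i) / 2) ∈ C) :
    volume.real A * volume.real B ≤ volume.real C ^ 2 := by
  have h1 := h κ A B C hA hB hC hmid
  have fC : volume C ≠ ∞ := ne_top_of_le_ne_top hM (measure_mono hCM)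
  have h2 := ENNReal.toReal_mono (ENNReal.pow_ne_top fC) h1
  rwa [ENNReal.toReal_mul, ENNReal.toReal_pow] at h2

end CORE

open CORE in
theorem core (h : S_BM) : S_CORE := by
  intro κ _ M hMm hmid hM i hpos
  have hfin : volume M ≠ ∞ := finite_of_sub hM
  obtain ⟨C, hC0, hslab⟩ := slab hM i
  let T : ℝ → ℝ := fun x => volume.real (M ∩ {d | d i < 1 - x})
  have hTm : ∀ x, MeasurableSet (M ∩ {d | d i < 1 - x}) := fun x => hMm.inter (meas_lt i _)
  have hTf : ∀ x, volume (M ∩ {d | d i < 1 - x}) ≠ ∞ := fun x =>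
    ne_top_of_le_ne_top hfin (measure_mono inter_subset_left)
  -- differences
  have hdiff : ∀ x y, x ≤ y → T x - T y = volume.real (M ∩ {d | 1 - y ≤ d i ∧ d i < 1 - x}) := by
    intro x y hxy
    have hsub : M ∩ {d | d i < 1 - y} ⊆ M ∩ {d | d i < 1 - x} := by
      rintro d ⟨h1, h2⟩
      have h2' : d i < 1 - y := h2
      exact ⟨h1, show d i < 1 - x by linarith⟩
    have e : (M ∩ {d | d i < 1 - x}) \ (M ∩ {d | d i < 1 - y})
        = M ∩ {d | 1 - y ≤ d i ∧ d i < 1 - x} := by
      ext d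
      simp only [mem_sdiff, mem_inter_iff, mem_ofPred_eq, not_and, not_lt]
      constructor
      · rintro ⟨⟨h1, h2⟩, h3⟩
        exact ⟨h1, h3 h1, h2⟩
      · rintro ⟨h1, h2, h3⟩
        exact ⟨⟨h1, h3⟩, fun _ => h2⟩
    rw [← e, measureReal_sdiff hsub (hTm y) (hTf x)]
  have hmono : ∀ x y, x ≤ y → T y ≤ T x := by
    intro x y hxy
    have := hdiff x y hxy
    have h0 : 0 ≤ volume.real (M ∩ {d | 1 - y ≤ d i ∧ d i < 1 - x}) := measureReal_nonneg
    linarith
  have hlip : ∀ x y, x ≤ y → T x - T y ≤ C * (y - x) := by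
    intro x y hxy
    rw [hdiff x y hxy]
    refine (hslab (1 - y) (1 - x) (by linarith)).trans (le_of_eq ?_)
    ring
  have hcont : Continuous T := by
    have : LipschitzWith ⟨C, hC0⟩ T := by
      refine LipschitzWith.of_dist_le_mul fun x y => ?_
      rw [Real.dist_eq, Real.dist_eq]
      show |T x - T y| ≤ C * |x - y|
      rcases le_total x y with hxy | hxy
      · have h1 := hlip x y hxy
        have h2 := hmono x y hxy
        rw [abs_of_nonneg (by linarith), abs_of_nonpos (by linarith)]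
        linarith
      · have h1 := hlip y x hxy
        have h2 := hmono y x hxy
        rw [abs_of_nonpos (by linarith), abs_of_nonneg (by linarith)]
        linarith
    exact this.continuous
  set p : ℝ := T 0 with hp
  have hTeq : T 0 = volume.real (M ∩ {d | d i < 1}) := by
    show volume.real (M ∩ {d | d i < 1 - 0}) = _
    rw [sub_zero]
  have hp0 : 0 < p := by
    rw [hp, hTeq]
    exact ENNReal.toReal_pos hpos (ne_top_of_le_ne_top hfin (measure_mono inter_subset_left))
  have hT1 : T 1 = 0 := by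
    have : M ∩ {d | d i < 1 - 1} = ∅ := by
      ext d
      simp only [mem_inter_iff, mem_ofPred_eq, sub_self, mem_empty_iff_false, iff_false, not_and,
        not_lt]
      intro hd
      exact (hM d hd i).1.le
    show volume.real (M ∩ {d | d i < 1 - 1}) = 0
    rw [this]; simp
  obtain ⟨δ, hδ, hTδ⟩ : ∃ δ ∈ Icc (0 : ℝ) 1, T δ = p / 2 := by
    have := intermediate_value_Icc' (zero_le_one' ℝ) hcont.continuousOn (f := T)
    exact this ⟨by rw [hT1]; linarith, by linarith⟩
  have hδ0 : 0 < δ := by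
    refine lt_of_le_of_ne hδ.1 fun h0 => ?_
    rw [← h0] at hTδ
    linarith
  -- log-concavity
  have hlc : ∀ x y z, x + z = 2 * y → T x * T z ≤ T y ^ 2 := by
    intro x y z hxz
    refine bm_real h (hTm x) (hTm z) (hTm y) hfin inter_subset_left inter_subset_left
      inter_subset_left ?_
    rintro a ⟨ha, ha2⟩ b ⟨hb, hb2⟩
    refine ⟨hmid a ha b hb, ?_⟩
    have ha3 : a i < 1 - x := ha2
    have hb3 : b i < 1 - z := hb2
    show (a i + b i) / 2 < 1 - y
    linarith
  have hTnn : ∀ x, 0 ≤ T x := fun x => measureReal_nonneg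
  have hhalf : ∀ k : ℕ, T ((k + 1 : ℕ) * δ) ≤ T (k * δ) / 2 := by
    intro k
    induction k with
    | zero =>
      have e1 : ((0 + 1 : ℕ) : ℝ) * δ = δ := by push_cast; ring
      have e2 : ((0 : ℕ) : ℝ) * δ = 0 := by push_cast; ring
      rw [e1, e2, hTδ]
    | succ k ih =>
      have h1 := hlc ((k + 1 + 1 : ℕ) * δ) ((k + 1 : ℕ) * δ) (k * δ) (by push_cast; ring)
      have h2 : T ((k + 1 + 1 : ℕ) * δ) ≤ T ((k + 1 : ℕ) * δ) :=
        hmono _ _ (by push_cast; nlinarith)
      have h3 := hTnn ((k + 1 : ℕ) * δ)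
      have h4 := hTnn ((k : ℕ) * δ)
      rcases h4.eq_or_lt with h5 | h5
      · rw [← h5] at ih
        have : T ((k + 1 : ℕ) * δ) = 0 := by linarith
        rw [this] at h2 ⊢
        linarith
      · have h6 : T ((k + 1 : ℕ) * δ) ^ 2 ≤ T ((k + 1 : ℕ) * δ) / 2 * T (k * δ) := by nlinarith
        exact le_of_mul_le_mul_right (h1.trans h6) h5
  have hgeo : ∀ k : ℕ, T (k * δ) ≤ p * (1 / 2) ^ k := by
    intro k
    induction k with
    | zero => simp [hp]
    | succ k ih =>
      have := hhalf k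
      rw [pow_succ]
      linarith
  refine ⟨δ, hδ0, hδ.2, ?_, ?_⟩
  · -- (a)
    have hA : volume.real (M ∩ {d | 1 - 2 * δ ≤ d i ∧ d i < 1 - δ}) = T δ - T (2 * δ) :=
      (hdiff δ (2 * δ) (by linarith)).symm
    have hCv : volume.real (M ∩ {d | 1 - δ ≤ d i ∧ d i < 1}) = T 0 - T δ := by
      rw [hdiff 0 δ hδ0.le, sub_zero]
    have h2 := hgeo 2
    have e2 : ((2 : ℕ) : ℝ) * δ = 2 * δ := by push_cast; ring
    rw [e2] at h2
    have hb := bm_real h (A := M ∩ {d | 1 - 2 * δ ≤ d i ∧ d i < 1 - δ})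
      (B := M ∩ {d | 1 ≤ d i ∧ d i < 1 + δ}) (C := M ∩ {d | 1 - δ ≤ d i ∧ d i < 1})
      (hMm.inter ((meas_ge i _).inter (meas_lt i _)))
      (hMm.inter ((meas_ge i _).inter (meas_lt i _)))
      (hMm.inter ((meas_ge i _).inter (meas_lt i _))) hfin inter_subset_left inter_subset_left
      inter_subset_left (by
        rintro a ⟨ha, ha2, ha3⟩ b ⟨hb, hb2, hb3⟩
        refine ⟨hmid a ha b hb, ?_, ?_⟩
        · show 1 - δ ≤ (a i + b i) / 2
          linarith
        · show (a i + b i) / 2 < 1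
          linarith)
    rw [hA, hCv, hTδ] at hb
    show volume.real (M ∩ {d | 1 ≤ d i ∧ d i < 1 + δ}) ≤ volume.real (M ∩ {d | d i < 1})
    rw [← hTeq, ← hp]
    rw [← hp] at hb
    have hbn : 0 ≤ volume.real (M ∩ {d | 1 ≤ d i ∧ d i < 1 + δ}) := measureReal_nonneg
    have h5 : p / 4 ≤ p / 2 - T (2 * δ) := by linarith
    have h6 : p / 4 * volume.real (M ∩ {d | 1 ≤ d i ∧ d i < 1 + δ}) ≤ p / 4 * p := by
      calc p / 4 * volume.real (M ∩ {d | 1 ≤ d i ∧ d i < 1 + δ})
          ≤ (p / 2 - T (2 * δ)) * volume.real (M ∩ {d | 1 ≤ d i ∧ d i < 1 + δ}) :=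
            mul_le_mul_of_nonneg_right h5 hbn
        _ ≤ (p - p / 2) ^ 2 := hb
        _ = p / 4 * p := by ring
    exact le_of_mul_le_mul_left h6 (by positivity)
  · -- (b)
    obtain ⟨K, hK⟩ := exists_nat_ge (1 / δ + 1)
    let g : (κ → ℝ) → ℝ := fun d =>
      δ * ∑ k ∈ Finset.range K, ({d : κ → ℝ | d i < 1 - k * δ}.indicator 1 d)
    have : IsFiniteMeasure (volume.restrict M) := ⟨by
      rw [Measure.restrict_apply_univ]; exact lt_top_iff_ne_top.2 hfin⟩
    have hind : ∀ k : ℕ, Integrable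
        ({d : κ → ℝ | d i < 1 - k * δ}.indicator (1 : (κ → ℝ) → ℝ)) (volume.restrict M) :=
      fun k => (integrable_const (1 : ℝ)).indicator (meas_lt i _)
    have hg : Integrable g (volume.restrict M) :=
      (integrable_finsetSum _ fun k _ => hind k).const_mul δ
    have hf : Integrable (fun d : κ → ℝ => max (1 - d i) 0) (volume.restrict M) := by
      refine Integrable.of_bound (C := 1) ?_ ?_
      · exact ((measurable_const.sub (measurable_pi_apply i)).max measurable_const).aestronglyMeasurable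
      · filter_upwards [ae_restrict_mem hMm] with d hd
        rw [Real.norm_of_nonneg (le_max_right _ _)]
        exact max_le (by linarith [(hM d hd i).1]) zero_le_one
    have hle : ∀ d ∈ M, max (1 - d i) 0 ≤ g d := by
      intro d hd
      have hsum0 : ∀ k ∈ Finset.range K,
          (0 : ℝ) ≤ {d : κ → ℝ | d i < 1 - k * δ}.indicator 1 d := fun k _ =>
        indicator_nonneg (fun _ _ => zero_le_one) _
      refine max_le ?_ (mul_nonneg hδ0.le (Finset.sum_nonneg hsum0))
      rcases le_or_gt 1 (d i) with h1 | h1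
      · exact le_trans (by linarith) (mul_nonneg hδ0.le (Finset.sum_nonneg hsum0))
      set L := ⌈(1 - d i) / δ⌉₊ with hL
      have hLle : (1 - d i) / δ ≤ L := Nat.le_ceil _
      have hLlt : (L : ℝ) < (1 - d i) / δ + 1 := Nat.ceil_lt_add_one (by
        apply div_nonneg _ hδ0.le; linarith)
      have hLK : L ≤ K := by
        have : (L : ℝ) ≤ K := by
          refine hLlt.le.trans (le_trans ?_ hK)
          have h2 := (hM d hd i).1
          gcongr
          linarith
        exact_mod_cast this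
      have h2 : (L : ℝ) ≤ ∑ k ∈ Finset.range K, {d : κ → ℝ | d i < 1 - k * δ}.indicator 1 d := by
        calc (L : ℝ) = ∑ k ∈ Finset.range L, (1 : ℝ) := by simp
          _ = ∑ k ∈ Finset.range L,
              ({d : κ → ℝ | d i < 1 - k * δ}.indicator (1 : (κ → ℝ) → ℝ) d) := by
              refine Finset.sum_congr rfl fun k hk => ?_
              rw [Finset.mem_range] at hk
              have hkL : (k : ℝ) < (1 - d i) / δ := Nat.lt_ceil.1 hk
              rw [lt_div_iff₀ hδ0] at hkL
              rw [indicator_of_mem]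
              · rfl
              · show d i < 1 - k * δ
                linarith
          _ ≤ _ := by
              refine Finset.sum_le_sum_of_subset_of_nonneg ?_ fun k hk _ => hsum0 k hk
              intro k hk
              rw [Finset.mem_range] at hk ⊢
              omega
      have h3 : 1 - d i ≤ δ * L := by
        rw [div_le_iff₀ hδ0] at hLle
        linarith
      exact h3.trans (mul_le_mul_of_nonneg_left h2 hδ0.le)
    have hint : ∫ d in M, g d = δ * ∑ k ∈ Finset.range K, T (k * δ) := by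
      show ∫ d in M, δ * ∑ k ∈ Finset.range K, ({d : κ → ℝ | d i < 1 - k * δ}.indicator 1 d) = _
      rw [integral_const_mul, integral_finsetSum _ fun k _ => hind k]
      congr 1
      refine Finset.sum_congr rfl fun k _ => ?_
      rw [integral_indicator_one (meas_lt i _), measureReal_restrict_apply (meas_lt i _),
        inter_comm]
    have hsum : ∑ k ∈ Finset.range K, T (k * δ) ≤ 2 * p := by
      calc ∑ k ∈ Finset.range K, T (k * δ) ≤ ∑ k ∈ Finset.range K, p * (1 / 2) ^ k :=
            Finset.sum_le_sum fun k _ => hgeo k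
        _ = p * ∑ k ∈ Finset.range K, (1 / 2 : ℝ) ^ k := by rw [Finset.mul_sum]
        _ ≤ p * 2 := by
            refine mul_le_mul_of_nonneg_left ?_ hp0.le
            exact sum_geometric_two_le K
        _ = 2 * p := mul_comm _ _
    calc ∫ d in M, max (1 - d i) 0 ≤ ∫ d in M, g d :=
          setIntegral_mono_on hf hg hMm hle
      _ = δ * ∑ k ∈ Finset.range K, T (k * δ) := hint
      _ ≤ δ * (2 * p) := mul_le_mul_of_nonneg_left hsum hδ0.le
      _ = 2 * δ * (volume (M ∩ {d | d i < 1})).toReal := by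
          rw [hp, hTeq]; unfold Measure.real; ring

end Pool.Agent.R894.RM
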