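import Pool.Agent.R894.RM.Defs

set_option autoImplicit false

open MeasureTheory Set
open scoped ENNReal

namespace Pool.Agent.R894.RM

/-- assembly -/
theorem fin (hG : S_GIB) (hC : S_CORE) (hS : S_SYM) (hB : S_BAS) (hN : S_NUM) : S_FIN := by
  obtain ⟨n0, hn0⟩ := hN
  refine ⟨1 / 128, by norm_num, max n0 3, fun n hn e => ?_⟩
  have hn0' : n0 ≤ n := (le_max_left _ _).trans hn
  have hn3 : 3 ≤ n := (le_max_right _ _).trans hn
  have hlog := hn0 n hn0'
  obtain ⟨hMm, hMt, hMc, hMp⟩ := hB n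
  set V : ℝ := (volume (MM n)).toReal with hV
  have hVne : volume (MM n) ≠ 0 := by
    intro h0
    exact hMp e (measure_mono_null inter_subset_left h0)
  have hVpos : 0 < V := ENNReal.toReal_pos hVne hMt
  refine ⟨hVpos, ?_⟩
  have hsub : ∀ d ∈ MM n, ∀ i, 0 < d i ∧ d i ≤ 2 := fun d hd i => hd.1 i
  obtain ⟨δ, hδ0, hδ1, h1, h2⟩ := hC (Edge n) (MM n) hMm hMc hsub e (hMp e)
  set p : ℝ := (volume (MM n ∩ {d | d e < 1})).toReal with hp
  have hp0 : 0 ≤ p := ENNReal.toReal_nonneg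
  have hG1 := hG (Edge n) (MM n) hMm hsub hVne δ hδ0 hδ1
  have hle : ∀ i : Edge n, Real.log 2 * (volume (MM n ∩ {d | d i < 1 + δ})).toReal
      + (1 / δ) * ∫ d in MM n, max (1 - d i) 0 ≤ 4 * p := by
    intro i
    rw [(hS n i e).1 (1 + δ), (hS n i e).2]
    have hsplit : (volume (MM n ∩ {d | d e < 1 + δ})).toReal ≤ 2 * p := by
      have hs : MM n ∩ {d | d e < 1 + δ} ⊆ (MM n ∩ {d | 1 ≤ d e ∧ d e < 1 + δ}) ∪
          (MM n ∩ {d | d e < 1}) := by
        rintro d ⟨hd1, hd2⟩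
        by_cases hd3 : d e < 1
        · exact Or.inr ⟨hd1, hd3⟩
        · exact Or.inl ⟨hd1, not_lt.mp hd3, hd2⟩
      have hfin : ∀ S : Set (Edge n → ℝ), volume (MM n ∩ S) ≠ ⊤ := fun S =>
        ne_top_of_le_ne_top hMt (measure_mono inter_subset_left)
      have h3 : (volume (MM n ∩ {d | d e < 1 + δ})).toReal ≤
          (volume (MM n ∩ {d | 1 ≤ d e ∧ d e < 1 + δ}) + volume (MM n ∩ {d | d e < 1})).toReal := by
        apply ENNReal.toReal_mono
        · exact ENNReal.add_ne_top.mpr ⟨hfin _, hfin _⟩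
        · exact (measure_mono hs).trans (measure_union_le _ _)
      rw [ENNReal.toReal_add (hfin _) (hfin _)] at h3
      linarith
    have hl2 : Real.log 2 ≤ 1 := by
      have := Real.log_two_lt_d9; linarith
    have hl0 : 0 ≤ Real.log 2 := Real.log_nonneg (by norm_num)
    have h4 : (1 / δ) * ∫ d in MM n, max (1 - d e) 0 ≤ 2 * p := by
      calc (1 / δ) * ∫ d in MM n, max (1 - d e) 0 ≤ (1 / δ) * (2 * δ * p) :=
            mul_le_mul_of_nonneg_left h2 (by positivity)
        _ = 2 * p := by field_simp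
    have h5 : Real.log 2 * (volume (MM n ∩ {d | d e < 1 + δ})).toReal ≤ 1 * (2 * p) :=
      mul_le_mul hl2 hsplit ENNReal.toReal_nonneg (by norm_num)
    linarith
  have hsum : V * Real.log V ≤ (Fintype.card (Edge n) : ℝ) * (4 * p) := by
    refine hG1.trans ?_
    refine (Finset.sum_le_sum (fun i _ => hle i)).trans ?_
    simp [Finset.sum_const, Finset.card_univ]
  have hcard : (Fintype.card (Edge n) : ℝ) ≤ (n : ℝ) ^ 2 / 2 := by
    have h6 : Fintype.card (Edge n) = n.choose 2 := by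
      have := Sym2.card_subtype_not_diag (α := Fin n)
      simpa using this
    rw [h6, Nat.cast_choose_two]
    nlinarith [Nat.cast_nonneg (α := ℝ) n]
  have hnpos : (0:ℝ) < n := by
    have : 0 < n := by omega
    exact_mod_cast this
  have hsq : 0 < Real.sqrt n := Real.sqrt_pos.mpr hnpos
  have hss : Real.sqrt n * Real.sqrt n = n := Real.mul_self_sqrt hnpos.le
  rw [le_div_iff₀ hVpos, div_mul_eq_mul_div, div_le_iff₀ hsq]
  -- 1/128 * V ≤ p * √n
  have h7 : V * ((n : ℝ) * Real.sqrt n / 64) ≤ (n : ℝ) ^ 2 / 2 * (4 * p) := by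
    calc V * ((n : ℝ) * Real.sqrt n / 64) ≤ V * Real.log V :=
          mul_le_mul_of_nonneg_left hlog hVpos.le
      _ ≤ (Fintype.card (Edge n) : ℝ) * (4 * p) := hsum
      _ ≤ (n : ℝ) ^ 2 / 2 * (4 * p) := mul_le_mul_of_nonneg_right hcard (by positivity)
  have h8 : V * Real.sqrt n / 128 ≤ (n : ℝ) * p := by
    have : (n : ℝ) * (V * Real.sqrt n / 128) ≤ (n : ℝ) * ((n : ℝ) * p) := by nlinarith
    exact le_of_mul_le_mul_left this hnpos
  have h9 : Real.sqrt n * (1 / 128 * V) ≤ Real.sqrt n * (p * Real.sqrt n) := by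
    calc Real.sqrt n * (1 / 128 * V) = V * Real.sqrt n / 128 := by ring
      _ ≤ (n : ℝ) * p := h8
      _ = (Real.sqrt n * Real.sqrt n) * p := by rw [hss]
      _ = Real.sqrt n * (p * Real.sqrt n) := by ring
  exact le_of_mul_le_mul_left h9 hsq

end Pool.Agent.R894.RM
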