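import Mathlib

/-!
# MP_1c6531_pr: definitions and statements of the pieces

`Edge n`: unordered pairs of distinct points of `Fin n`; `MM n`: the metric polytope (all distances
in `(0,2]`).  Every piece is a `Prop` `S_XXX`; see `NOTES.md` for the proofs.
-/

set_option autoImplicit false

open MeasureTheory Set
open scoped ENNReal

namespace Pool.Agent.R894.RM

/-- unordered pairs of distinct points -/
abbrev Edge (n : ℕ) : Type := {e : Sym2 (Fin n) // ¬ e.IsDiag}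

/-- the pair `{i, j}` -/
def mk {n : ℕ} (i j : Fin n) (h : i ≠ j) : Edge n := ⟨s(i, j), by simpa using h⟩

/-- the metrics on `n` points with all distances in `(0,2]` -/
def MM (n : ℕ) : Set (Edge n → ℝ) :=
  {d | (∀ e, 0 < d e ∧ d e ≤ 2) ∧ ∀ (i j k : Fin n) (hij : i ≠ j) (hik : i ≠ k) (hkj : k ≠ j),
    d (mk i j hij) ≤ d (mk i k hik) + d (mk k j hkj)}

/-- (LLL) Lovász local lemma, quantitative symmetric form -/
def S_LLL : Prop := ∀ (Ω : Type) [MeasurableSpace Ω] (μ : Measure Ω) [IsProbabilityMeasure μ]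
  (ι : Type) [Fintype ι] [DecidableEq ι] (A : ι → Set Ω) (Γ : ι → Finset ι) (D : ℕ) (p x : ℝ),
  (∀ i, MeasurableSet (A i)) → 0 < x → x < 1 → (∀ i, (μ (A i)).toReal ≤ p) →
  (∀ i, (Γ i).card ≤ D) → p ≤ x * (1 - x) ^ D →
  (∀ i, ∀ S : Finset ι, (∀ j ∈ S, j ∉ Γ i) → i ∉ S →
    μ (A i ∩ ⋂ j ∈ S, (A j)ᶜ) = μ (A i) * μ (⋂ j ∈ S, (A j)ᶜ)) →
  (1 - x) ^ (Fintype.card ι) ≤ (μ (⋂ j, (A j)ᶜ)).toReal

/-- (IND) independence for a product measure: sets depending on disjoint groups of coordinates -/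
def S_IND : Prop := ∀ (κ : Type) [Fintype κ] [DecidableEq κ] (μ : Measure ℝ)
  [IsProbabilityMeasure μ] (T : Finset κ) (A B : Set (κ → ℝ)), MeasurableSet A → MeasurableSet B →
  (∀ x y : κ → ℝ, (∀ k ∈ T, x k = y k) → (x ∈ A ↔ y ∈ A)) →
  (∀ x y : κ → ℝ, (∀ k, k ∉ T → x k = y k) → (x ∈ B ↔ y ∈ B)) →
  Measure.pi (fun _ => μ) (A ∩ B) = Measure.pi (fun _ => μ) A * Measure.pi (fun _ => μ) B

/-- (VOL) lower bound for the volume of the metric polytope -/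
def S_VOL : Prop := ∀ (n : ℕ) (δ : ℝ), 3 ≤ n → 0 < δ → δ ≤ 1 / 16 → 576 * (n : ℝ) * δ ^ 3 ≤ 1 →
  (1 + δ) ^ (n.choose 2) * (1 - 16 * δ ^ 3) ^ (n ^ 3) ≤ (volume (MM n)).toReal

/-- (NUM) the explicit form -/
def S_NUM : Prop := ∃ n0 : ℕ, ∀ n : ℕ, n0 ≤ n →
  (n : ℝ) * Real.sqrt n / 64 ≤ Real.log (volume (MM n)).toReal

/-- (GIB) Gibbs' inequality for the uniform distribution on `M ⊆ (0,2]^κ` and the product of the
one dimensional density `exp (-(1-t)/δ) / 2` on `(0,1)`, `1/2` on `[1,1+δ)`, `1` on `[1+δ,2]` -/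
def S_GIB : Prop := ∀ (κ : Type) [Fintype κ] (M : Set (κ → ℝ)), MeasurableSet M →
  (∀ d ∈ M, ∀ i, 0 < d i ∧ d i ≤ 2) → volume M ≠ 0 → ∀ δ : ℝ, 0 < δ → δ ≤ 1 →
  (volume M).toReal * Real.log (volume M).toReal ≤
    ∑ i, (Real.log 2 * (volume (M ∩ {d | d i < 1 + δ})).toReal
      + (1 / δ) * ∫ d in M, max (1 - d i) 0)

/-- (BM) the multiplicative midpoint Brunn-Minkowski inequality -/
def S_BM : Prop := ∀ (κ : Type) [Fintype κ] (A B C : Set (κ → ℝ)), MeasurableSet A →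
  MeasurableSet B → MeasurableSet C → (∀ a ∈ A, ∀ b ∈ B, (fun i => (a i + b i) / 2) ∈ C) →
  volume A * volume B ≤ volume C ^ 2

/-- (CORE) consequences of log-concavity -/
def S_CORE : Prop := ∀ (κ : Type) [Fintype κ] (M : Set (κ → ℝ)), MeasurableSet M →
  (∀ a ∈ M, ∀ b ∈ M, (fun i => (a i + b i) / 2) ∈ M) →
  (∀ d ∈ M, ∀ i, 0 < d i ∧ d i ≤ 2) → ∀ i : κ, volume (M ∩ {d | d i < 1}) ≠ 0 →
  ∃ δ : ℝ, 0 < δ ∧ δ ≤ 1 ∧
    (volume (M ∩ {d | 1 ≤ d i ∧ d i < 1 + δ})).toReal ≤ (volume (M ∩ {d | d i < 1})).toReal ∧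
    ∫ d in M, max (1 - d i) 0 ≤ 2 * δ * (volume (M ∩ {d | d i < 1})).toReal

/-- (SYM) all distances have the same law -/
def S_SYM : Prop := ∀ (n : ℕ) (e e' : Edge n),
  (∀ t : ℝ, volume (MM n ∩ {d | d e < t}) = volume (MM n ∩ {d | d e' < t})) ∧
  ∫ d in MM n, max (1 - d e) 0 = ∫ d in MM n, max (1 - d e') 0

/-- (BAS) basic facts -/
def S_BAS : Prop := ∀ n : ℕ, MeasurableSet (MM n) ∧ volume (MM n) ≠ ⊤ ∧
  (∀ a ∈ MM n, ∀ b ∈ MM n, (fun i => (a i + b i) / 2) ∈ MM n) ∧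
  ∀ e : Edge n, volume (MM n ∩ {d | d e < 1}) ≠ 0

/-- the final statement -/
def S_FIN : Prop := ∃ c : ℝ, 0 < c ∧ ∃ n0 : ℕ, ∀ n : ℕ, n0 ≤ n → ∀ e : Edge n,
  0 < (volume (MM n)).toReal ∧
  c / Real.sqrt n ≤ (volume (MM n ∩ {d | d e < 1})).toReal / (volume (MM n)).toReal

end Pool.Agent.R894.RM
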