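import Mathlib
import Pool.Agent.R894.RM.Defs

/-!
# MP_1c6531_pr, piece GIB: Gibbs' inequality
-/

set_option autoImplicit false

open MeasureTheory Set
open scoped ENNReal

namespace Pool.Agent.R894.RM

namespace GIB

/-- minus the logarithm of the density -/
noncomputable def hh (δ t : ℝ) : ℝ :=
  (Iio (1 + δ)).indicator (fun _ => Real.log 2) t + (1 / δ) * max (1 - t) 0

theorem meas_hh (δ : ℝ) : Measurable (hh δ) := by
  unfold hh
  apply Measurable.add
  · exact measurable_const.indicator measurableSet_Iio
  · exact ((measurable_const.sub measurable_id).max measurable_const).const_mul _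

theorem hh_nonneg (δ t : ℝ) (h : 0 < δ) : 0 ≤ hh δ t := by
  unfold hh
  have h1 : 0 ≤ (Iio (1 + δ)).indicator (fun _ => Real.log 2) t :=
    indicator_nonneg (fun _ _ => Real.log_nonneg (by norm_num)) t
  have h2 : 0 ≤ (1 / δ) * max (1 - t) 0 := mul_nonneg (by positivity) (le_max_right _ _)
  linarith

/-- the density -/
noncomputable def gg (δ t : ℝ) : ℝ := Real.exp (-hh δ t)

theorem meas_gg (δ : ℝ) : Measurable (gg δ) := Real.measurable_exp.comp (meas_hh δ).neg

theorem gg_pos (δ t : ℝ) : 0 < gg δ t := Real.exp_pos _

theorem gg_le (δ t : ℝ) (h : 0 < δ) : gg δ t ≤ 1 :=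
  Real.exp_le_one_iff.2 (by have := hh_nonneg δ t h; linarith)

theorem int_gg (δ a b : ℝ) (h : 0 < δ) : IntegrableOn (gg δ) (Ioc a b) := by
  apply Measure.integrableOn_of_bounded (M := 1) (by simp) (meas_gg δ).aestronglyMeasurable
  filter_upwards with t
  rw [Real.norm_eq_abs, abs_of_pos (gg_pos δ t)]
  exact gg_le δ t h

theorem ii_gg (δ a b : ℝ) (h : 0 < δ) (hab : a ≤ b) : IntervalIntegrable (gg δ) volume a b := by
  rw [intervalIntegrable_iff_integrableOn_Ioc_of_le hab]
  exact int_gg δ a b h

theorem bound (δ : ℝ) (h : 0 < δ) (h1 : δ ≤ 1) : ∫ t in Ioc (0 : ℝ) 2, gg δ t ≤ 1 := by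
  rw [← intervalIntegral.integral_of_le (by norm_num : (0 : ℝ) ≤ 2)]
  rw [← intervalIntegral.integral_add_adjacent_intervals (ii_gg δ 0 1 h (by norm_num))
    (ii_gg δ 1 2 h (by norm_num))]
  rw [← intervalIntegral.integral_add_adjacent_intervals (ii_gg δ 1 (1 + δ) h (by linarith))
    (ii_gg δ (1 + δ) 2 h (by linarith))]
  have p1 : ∫ t in (0 : ℝ)..1, gg δ t ≤ δ / 2 := by
    have e1 : ∫ t in (0 : ℝ)..1, gg δ t = ∫ t in (0 : ℝ)..1, Real.exp ((t - 1) / δ) / 2 := by
      rw [intervalIntegral.integral_of_le (by norm_num), intervalIntegral.integral_of_le (by norm_num)]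
      apply setIntegral_congr_fun measurableSet_Ioc
      intro t ht
      simp only [gg, hh]
      rw [indicator_of_mem (show t ∈ Iio (1 + δ) from lt_of_le_of_lt ht.2 (by linarith)),
        max_eq_left (by linarith [ht.2])]
      rw [neg_add, Real.exp_add, Real.exp_neg, Real.exp_log (by norm_num)]
      have : -(1 / δ * (1 - t)) = (t - 1) / δ := by ring
      rw [this]
      ring
    rw [e1]
    have e2 : ∫ t in (0 : ℝ)..1, Real.exp ((t - 1) / δ) / 2
        = δ / 2 * Real.exp ((1 - 1) / δ) - δ / 2 * Real.exp ((0 - 1) / δ) := by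
      apply intervalIntegral.integral_eq_sub_of_hasDerivAt
        (f := fun t : ℝ => δ / 2 * Real.exp ((t - 1) / δ))
      · intro t _
        have hd : HasDerivAt (fun t : ℝ => (t - 1) / δ) (1 / δ) t := by
          simpa using ((hasDerivAt_id t).sub_const 1).div_const δ
        have := (hd.exp).const_mul (δ / 2)
        have e3 : δ / 2 * (Real.exp ((t - 1) / δ) * (1 / δ)) = Real.exp ((t - 1) / δ) / 2 := by
          field_simp
        rw [e3] at this
        exact this
      · apply Continuous.intervalIntegrable
        fun_prop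
    rw [e2]
    have : 0 ≤ δ / 2 * Real.exp ((0 - 1) / δ) := by positivity
    simp only [sub_self, zero_div, Real.exp_zero, mul_one]
    linarith
  have p2 : ∫ t in (1 : ℝ)..(1 + δ), gg δ t ≤ δ / 2 := by
    rw [intervalIntegral.integral_of_le (by linarith), integral_Ioc_eq_integral_Ioo]
    have e : ∫ t in Ioo (1 : ℝ) (1 + δ), gg δ t ≤ ∫ t in Ioo (1 : ℝ) (1 + δ), (1 / 2 : ℝ) := by
      apply setIntegral_mono_on
      · exact (int_gg δ 1 (1 + δ) h).mono_set Ioo_subset_Ioc_self
      · simp
      · exact measurableSet_Ioo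
      · intro t ht
        simp only [gg, hh]
        rw [indicator_of_mem (show t ∈ Iio (1 + δ) from ht.2),
          max_eq_right (by linarith [ht.1]), mul_zero, add_zero, Real.exp_neg,
          Real.exp_log (by norm_num)]
        norm_num
    refine e.trans ?_
    rw [setIntegral_const, Measure.real, Real.volume_Ioo]
    rw [ENNReal.toReal_ofReal (by linarith)]
    simp only [smul_eq_mul]
    linarith
  have p3 : ∫ t in (1 + δ)..2, gg δ t ≤ 1 - δ := by
    rw [intervalIntegral.integral_of_le (by linarith)]
    have e : ∫ t in Ioc (1 + δ) (2 : ℝ), gg δ t ≤ ∫ t in Ioc (1 + δ) (2 : ℝ), (1 : ℝ) := by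
      apply setIntegral_mono_on
      · exact int_gg δ _ _ h
      · simp
      · exact measurableSet_Ioc
      · intro t _
        exact gg_le δ t h
    refine e.trans ?_
    rw [setIntegral_const, Measure.real, Real.volume_Ioc]
    rw [ENNReal.toReal_ofReal (by linarith)]
    simp only [smul_eq_mul]
    linarith
  linarith

end GIB

open GIB in
theorem gib : S_GIB := by
  intro κ _ M hM hbox hne δ hδ hδ1
  classical
  have hsub : M ⊆ Set.pi univ (fun _ : κ => Ioc (0 : ℝ) 2) := fun d hd i _ => hbox d hd i
  have hfin : volume M < ⊤ := by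
    refine lt_of_le_of_lt (measure_mono hsub) ?_
    rw [volume_pi_pi]
    exact ENNReal.prod_lt_top (fun i _ => by simp)
  have : IsFiniteMeasure (volume.restrict M) :=
    ⟨by rw [Measure.restrict_apply_univ]; exact hfin⟩
  set V := (volume M).toReal with hV
  have hVpos : 0 < V := ENNReal.toReal_pos hne hfin.ne
  -- the product density has integral at most one on `M`
  set G : (κ → ℝ) → ℝ := fun d => ∏ i, gg δ (d i) with hG
  have hGm : Measurable G := Finset.measurable_prod _ (fun i _ => (meas_gg δ).comp (measurable_pi_apply i))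
  have hG1 : ∀ d, 0 ≤ G d ∧ G d ≤ 1 := fun d =>
    ⟨Finset.prod_nonneg (fun i _ => (gg_pos δ (d i)).le),
      Finset.prod_le_one (fun i _ => (gg_pos δ (d i)).le) (fun i _ => gg_le δ (d i) hδ)⟩
  have hGi : Integrable G (volume.restrict M) := by
    apply Integrable.of_bound hGm.aestronglyMeasurable 1
    filter_upwards with d
    rw [Real.norm_eq_abs, abs_of_nonneg (hG1 d).1]
    exact (hG1 d).2
  have hGint : ∫ d in M, G d ≤ 1 := by
    set f : κ → ℝ → ℝ := fun _ => (Ioc (0 : ℝ) 2).indicator (gg δ) with hf
    have hprod : ∫ d : κ → ℝ, ∏ i, f i (d i) = ∏ i, ∫ t, f i t :=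
      integral_fintype_prod_volume_eq_prod f
    have hle : ∏ i : κ, ∫ t, f i t ≤ 1 := by
      apply Finset.prod_le_one
      · intro i _
        apply integral_nonneg
        intro t
        exact indicator_nonneg (fun t _ => (gg_pos δ t).le) t
      · intro i _
        rw [hf]
        simp only
        rw [integral_indicator measurableSet_Ioc]
        exact bound δ hδ hδ1
    have hnn : ∀ d : κ → ℝ, 0 ≤ ∏ i, f i (d i) := fun d =>
      Finset.prod_nonneg (fun i _ => indicator_nonneg (fun t _ => (gg_pos δ t).le) _)
    have hint : Integrable (fun d : κ → ℝ => ∏ i, f i (d i)) := by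
      apply Integrable.fintype_prod
      intro i
      rw [hf]
      exact (int_gg δ 0 2 hδ).integrable_indicator measurableSet_Ioc
    calc ∫ d in M, G d = ∫ d in M, ∏ i, f i (d i) := by
          apply setIntegral_congr_fun hM
          intro d hd
          simp only [hG, hf]
          apply Finset.prod_congr rfl
          intro i _
          exact (indicator_of_mem (show d i ∈ Ioc (0 : ℝ) 2 from hbox d hd i) _).symm
      _ ≤ ∫ d : κ → ℝ, ∏ i, f i (d i) := setIntegral_le_integral hint (ae_of_all _ hnn)
      _ ≤ 1 := by rw [hprod]; exact hle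
  -- integrability of the pieces
  have hmax : ∀ i, Integrable (fun d : κ → ℝ => max (1 - d i) 0) (volume.restrict M) := by
    intro i
    apply Integrable.of_bound (C := 1)
    · exact ((measurable_const.sub (measurable_pi_apply i)).max measurable_const).aestronglyMeasurable
    · rw [ae_restrict_iff' hM]
      filter_upwards with d hd
      rw [Real.norm_eq_abs, abs_of_nonneg (le_max_right _ _)]
      exact max_le (by linarith [(hbox d hd i).1]) (by norm_num)
  have hind : ∀ i, Integrable (fun d : κ → ℝ => (Iio (1 + δ)).indicator (fun _ => Real.log 2) (d i))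
      (volume.restrict M) := by
    intro i
    apply Integrable.of_bound (C := Real.log 2)
    · exact ((measurable_const.indicator measurableSet_Iio).comp
        (measurable_pi_apply i)).aestronglyMeasurable
    · filter_upwards with d
      rw [Real.norm_eq_abs]
      by_cases hc : d i ∈ Iio (1 + δ)
      · rw [indicator_of_mem hc, abs_of_nonneg (Real.log_nonneg (by norm_num))]
      · rw [indicator_of_notMem hc, abs_zero]
        exact Real.log_nonneg (by norm_num)
  have hhi : ∀ i, Integrable (fun d : κ → ℝ => hh δ (d i)) (volume.restrict M) := by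
    intro i
    unfold hh
    exact (hind i).add ((hmax i).const_mul _)
  have hhint : ∀ i, ∫ d in M, hh δ (d i) = Real.log 2 * (volume (M ∩ {d | d i < 1 + δ})).toReal
      + (1 / δ) * ∫ d in M, max (1 - d i) 0 := by
    intro i
    unfold hh
    rw [integral_add (hind i) ((hmax i).const_mul _), integral_const_mul]
    congr 1
    have hms : MeasurableSet {d : κ → ℝ | d i < 1 + δ} :=
      measurableSet_lt (measurable_pi_apply i) measurable_const
    have : (fun d : κ → ℝ => (Iio (1 + δ)).indicator (fun _ => Real.log 2) (d i))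
        = {d : κ → ℝ | d i < 1 + δ}.indicator (fun _ => Real.log 2) := by
      funext d
      by_cases hc : d i < 1 + δ
      · rw [indicator_of_mem (show d i ∈ Iio (1 + δ) from hc),
          indicator_of_mem (show d ∈ {d : κ → ℝ | d i < 1 + δ} from hc)]
      · rw [indicator_of_notMem (show d i ∉ Iio (1 + δ) from hc),
          indicator_of_notMem (show d ∉ {d : κ → ℝ | d i < 1 + δ} from hc)]
    rw [this, integral_indicator hms, setIntegral_const, Measure.real,
      Measure.restrict_apply hms, inter_comm, smul_eq_mul, mul_comm]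
  -- the pointwise inequality, integrated
  have hpt : ∀ d : κ → ℝ, Real.log V - ∑ i, hh δ (d i) ≤ V * G d - 1 := by
    intro d
    have h1 := Real.log_le_sub_one_of_pos (mul_pos hVpos
      (Finset.prod_pos (fun i (_ : i ∈ Finset.univ) => gg_pos δ (d i))))
    rw [Real.log_mul hVpos.ne' (Finset.prod_pos (fun i _ => gg_pos δ (d i))).ne',
      Real.log_prod (fun i _ => (gg_pos δ (d i)).ne')] at h1
    have h2 : ∑ i, Real.log (gg δ (d i)) = - ∑ i, hh δ (d i) := by
      rw [← Finset.sum_neg_distrib]
      apply Finset.sum_congr rfl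
      intro i _
      exact Real.log_exp _
    rw [h2] at h1
    linarith
  have hsum : Integrable (fun d : κ → ℝ => ∑ i, hh δ (d i)) (volume.restrict M) :=
    integrable_finsetSum _ (fun i _ => hhi i)
  have hineq : ∫ d in M, (Real.log V - ∑ i, hh δ (d i)) ≤ ∫ d in M, (V * G d - 1) :=
    integral_mono ((integrable_const _).sub hsum) ((hGi.const_mul V).sub (integrable_const _)) hpt
  rw [integral_sub (integrable_const _) hsum, integral_sub (hGi.const_mul V) (integrable_const _),
    integral_const_mul, integral_finsetSum _ (fun i _ => hhi i), setIntegral_const,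
    setIntegral_const, Measure.real, ← hV] at hineq
  simp only [smul_eq_mul, mul_one] at hineq
  have h3 : V * ∫ d in M, G d ≤ V * 1 := mul_le_mul_of_nonneg_left hGint hVpos.le
  rw [Finset.sum_congr rfl (fun i _ => hhint i)] at hineq
  linarith

end Pool.Agent.R894.RM
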