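import Pool.Agent.R894.RM.Defs

set_option autoImplicit false

open MeasureTheory Set
open scoped ENNReal

namespace Pool.Agent.R894.RM

theorem ind_aux (κ : Type) [Fintype κ] (μ : Measure ℝ) [IsProbabilityMeasure μ]
    (p : κ → Prop) [DecidablePred p] (A B : Set (κ → ℝ)) (hA : MeasurableSet A)
    (hB : MeasurableSet B) (hAT : ∀ x y : κ → ℝ, (∀ k, p k → x k = y k) → (x ∈ A ↔ y ∈ A))
    (hBT : ∀ x y : κ → ℝ, (∀ k, ¬ p k → x k = y k) → (x ∈ B ↔ y ∈ B)) :
    Measure.pi (fun _ => μ) (A ∩ B) = Measure.pi (fun _ => μ) A * Measure.pi (fun _ => μ) B := by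
  set e := MeasurableEquiv.piEquivPiSubtypeProd (fun _ : κ => ℝ) p with he
  have hmp : MeasurePreserving e (Measure.pi fun _ : κ => μ)
      ((Measure.pi fun _ : {k // p k} => μ).prod (Measure.pi fun _ : {k // ¬ p k} => μ)) :=
    measurePreserving_piEquivPiSubtypeProd (fun _ : κ => μ) p
  have hsym1 : ∀ (y : {k // p k} → ℝ) (z : {k // ¬ p k} → ℝ) (k : κ) (hk : p k),
      e.symm (y, z) k = y ⟨k, hk⟩ := by
    intro y z k hk
    change (if h : p k then y ⟨k, h⟩ else z ⟨k, h⟩) = _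
    rw [dif_pos hk]
  have hsym2 : ∀ (y : {k // p k} → ℝ) (z : {k // ¬ p k} → ℝ) (k : κ) (hk : ¬ p k),
      e.symm (y, z) k = z ⟨k, hk⟩ := by
    intro y z k hk
    change (if h : p k then y ⟨k, h⟩ else z ⟨k, h⟩) = _
    rw [dif_neg hk]
  set A' : Set ({k // p k} → ℝ) := {y | e.symm (y, 0) ∈ A} with hA'
  set B' : Set ({k // ¬ p k} → ℝ) := {z | e.symm (0, z) ∈ B} with hB'
  have mA' : MeasurableSet A' :=
    hA.preimage (e.symm.measurable.comp (measurable_id.prodMk measurable_const))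
  have mB' : MeasurableSet B' :=
    hB.preimage (e.symm.measurable.comp (measurable_const.prodMk measurable_id))
  have hAx : ∀ x : κ → ℝ, x ∈ A ↔ (e x).1 ∈ A' := by
    intro x
    refine hAT x _ ?_
    intro k hk
    rw [hsym1 _ _ k hk]
    rfl
  have hBx : ∀ x : κ → ℝ, x ∈ B ↔ (e x).2 ∈ B' := by
    intro x
    refine hBT x _ ?_
    intro k hk
    rw [hsym2 _ _ k hk]
    rfl
  have e1 : A = e ⁻¹' (A' ×ˢ (univ : Set ({k // ¬ p k} → ℝ))) := by
    ext x
    rw [hAx x, mem_preimage, mem_prod]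
    simp
  have e2 : B = e ⁻¹' ((univ : Set ({k // p k} → ℝ)) ×ˢ B') := by
    ext x
    rw [hBx x, mem_preimage, mem_prod]
    simp
  have e3 : A ∩ B = e ⁻¹' (A' ×ˢ B') := by
    ext x
    rw [mem_inter_iff, hAx x, hBx x, mem_preimage, mem_prod]
  have m1 : Measure.pi (fun _ => μ) A = Measure.pi (fun _ : {k // p k} => μ) A' := by
    rw [e1, hmp.measure_preimage (mA'.prod MeasurableSet.univ).nullMeasurableSet,
      Measure.prod_prod, measure_univ, mul_one]
  have m2 : Measure.pi (fun _ => μ) B = Measure.pi (fun _ : {k // ¬ p k} => μ) B' := by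
    rw [e2, hmp.measure_preimage (MeasurableSet.univ.prod mB').nullMeasurableSet,
      Measure.prod_prod, measure_univ, one_mul]
  rw [m1, m2, e3, hmp.measure_preimage (mA'.prod mB').nullMeasurableSet, Measure.prod_prod]

/-- (IND) -/
theorem ind : S_IND := by
  intro κ _ _ μ _ T A B hA hB hAT hBT
  exact ind_aux κ μ (fun k => k ∈ T) A B hA hB hAT hBT

end Pool.Agent.R894.RM
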