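import Pool.Agent.R894.RM.Defs

/-! # The quantitative symmetric Lovász local lemma -/

set_option autoImplicit false

open MeasureTheory Set
open scoped ENNReal

namespace Pool.Agent.R894.RM

namespace LLL

variable {Ω : Type} [MeasurableSpace Ω] (μ : Measure Ω) [IsProbabilityMeasure μ]
  {ι : Type} [Fintype ι] [DecidableEq ι] (A : ι → Set Ω)

/-- probability that no event of `S` happens -/
noncomputable def m (S : Finset ι) : ℝ := μ.real (⋂ j ∈ S, (A j)ᶜ)

theorem m_nonneg (S : Finset ι) : 0 ≤ m μ A S := measureReal_nonneg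

theorem m_empty : m μ A ∅ = 1 := by simp [m]

theorem m_insert (hA : ∀ i, MeasurableSet (A i)) (S : Finset ι) (i : ι) :
    m μ A (insert i S) = m μ A S - μ.real (A i ∩ ⋂ j ∈ S, (A j)ᶜ) := by
  unfold m
  have h := measureReal_inter_add_diff (μ := μ) (s := ⋂ j ∈ S, (A j)ᶜ) (hA i)
  rw [Finset.set_biInter_insert, inter_comm (A i), inter_comm (A i)ᶜ, ← diff_eq]
  linarith

end LLL

open LLL in
theorem lll : S_LLL := by
  intro Ω _ μ _ ι _ _ A Γ D p x hA hx0 hx1 hp hD hpx hind
  have hx1' : 0 < 1 - x := by linarith
  have claim : ∀ n : ℕ, ∀ S : Finset ι, S.card = n → ∀ i ∉ S,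
      μ.real (A i ∩ ⋂ j ∈ S, (A j)ᶜ) ≤ x * m μ A S := by
    intro n
    induction n using Nat.strong_induction_on with
    | _ n ih =>
      intro S hS i hi
      set S1 := S.filter (· ∈ Γ i) with hS1
      set S2 := S.filter (· ∉ Γ i) with hS2
      have hsub2 : S2 ⊆ S := Finset.filter_subset _ _
      have hsub1 : S1 ⊆ S := Finset.filter_subset _ _
      have hp0 : 0 ≤ p := le_trans ENNReal.toReal_nonneg (hp i)
      -- upper bound
      have h1 : μ.real (A i ∩ ⋂ j ∈ S, (A j)ᶜ) ≤ p * m μ A S2 := by
        have h2 : μ.real (A i ∩ ⋂ j ∈ S, (A j)ᶜ) ≤ μ.real (A i ∩ ⋂ j ∈ S2, (A j)ᶜ) := by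
          refine measureReal_mono ?_
          refine inter_subset_inter_right _ ?_
          exact biInter_subset_biInter_left hsub2
        have h3 : μ.real (A i ∩ ⋂ j ∈ S2, (A j)ᶜ) = μ.real (A i) * m μ A S2 := by
          unfold m Measure.real
          rw [hind i S2 (fun j hj => (Finset.mem_filter.1 hj).2) (fun h => hi (hsub2 h)),
            ENNReal.toReal_mul]
        rw [h3] at h2
        exact h2.trans (mul_le_mul_of_nonneg_right (hp i) (m_nonneg μ A S2))
      -- lower bound
      have h4 : ∀ T : Finset ι, T ⊆ S1 → (1 - x) ^ T.card * m μ A S2 ≤ m μ A (T ∪ S2) := by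
        intro T
        induction T using Finset.induction_on with
        | empty => intro _; simp
        | insert j T hj ihT =>
          intro hT
          have hT' : T ⊆ S1 := (Finset.subset_insert _ _).trans hT
          have hjS1 : j ∈ S1 := hT (Finset.mem_insert_self _ _)
          have hjS2 : j ∉ S2 := fun h => (Finset.mem_filter.1 h).2 (Finset.mem_filter.1 hjS1).2
          have hjn : j ∉ T ∪ S2 := by
            rw [Finset.mem_union]; rintro (h | h)
            · exact hj h
            · exact hjS2 h
          have hlt : (T ∪ S2).card < n := by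
            rw [← hS]
            refine Finset.card_lt_card ⟨Finset.union_subset (hT'.trans hsub1) hsub2, fun h => ?_⟩
            exact hjn (h (hsub1 hjS1))
          have h5 := ih _ hlt (T ∪ S2) rfl j hjn
          have h6 := ihT hT'
          rw [Finset.card_insert_of_notMem hj, Finset.insert_union, m_insert μ A hA, pow_succ]
          calc (1 - x) ^ T.card * (1 - x) * m μ A S2
              = (1 - x) * ((1 - x) ^ T.card * m μ A S2) := by ring
            _ ≤ (1 - x) * m μ A (T ∪ S2) := mul_le_mul_of_nonneg_left h6 hx1'.le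
            _ ≤ _ := by linarith
      have h7 := h4 S1 (Finset.Subset.refl _)
      have h8 : S1 ∪ S2 = S := Finset.filter_union_filter_not_eq _ _
      rw [h8] at h7
      have h9 : S1.card ≤ D := by
        refine le_trans (Finset.card_le_card ?_) (hD i)
        intro j hj
        exact (Finset.mem_filter.1 hj).2
      have h10 : (1 - x) ^ D ≤ (1 - x) ^ S1.card :=
        pow_le_pow_of_le_one hx1'.le (by linarith) h9
      calc μ.real (A i ∩ ⋂ j ∈ S, (A j)ᶜ) ≤ p * m μ A S2 := h1
        _ ≤ (x * (1 - x) ^ D) * m μ A S2 := mul_le_mul_of_nonneg_right hpx (m_nonneg μ A S2)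
        _ = x * ((1 - x) ^ D * m μ A S2) := by ring
        _ ≤ x * ((1 - x) ^ S1.card * m μ A S2) :=
            mul_le_mul_of_nonneg_left (mul_le_mul_of_nonneg_right h10 (m_nonneg μ A S2)) hx0.le
        _ ≤ x * m μ A S := mul_le_mul_of_nonneg_left h7 hx0.le
  have hall : ∀ S : Finset ι, (1 - x) ^ S.card ≤ m μ A S := by
    intro S
    induction S using Finset.induction_on with
    | empty => simp [m_empty]
    | insert j S hj ih =>
      have h5 := claim _ S rfl j hj
      rw [Finset.card_insert_of_notMem hj, m_insert μ A hA, pow_succ]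
      calc (1 - x) ^ S.card * (1 - x) = (1 - x) * (1 - x) ^ S.card := by ring
        _ ≤ (1 - x) * m μ A S := mul_le_mul_of_nonneg_left ih hx1'.le
        _ ≤ _ := by linarith
  have h := hall Finset.univ
  have h2 : m μ A Finset.univ = (μ (⋂ j, (A j)ᶜ)).toReal := by
    unfold m Measure.real
    simp
  rw [h2] at h
  simpa using h

end Pool.Agent.R894.RM
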