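import Pool.Agent.R894.RM.Defs

set_option autoImplicit false

open MeasureTheory Set
open scoped ENNReal

namespace Pool.Agent.R894.RM

/-- explicit volume bound -/
theorem num (h : S_VOL) : S_NUM := by
  refine ⟨5, fun n hn => ?_⟩
  have hn5 : (5:ℝ) ≤ n := by exact_mod_cast hn
  have hnpos : (0:ℝ) < n := by linarith
  set s : ℝ := Real.sqrt n with hs
  have hs0 : 0 < s := Real.sqrt_pos.mpr hnpos
  have hss : s ^ 2 = n := Real.sq_sqrt hnpos.le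
  have hs1 : 1 ≤ s := by
    by_contra hcon
    push Not at hcon
    nlinarith
  set δ : ℝ := 1 / (16 * s) with hδ
  have hδ0 : 0 < δ := by positivity
  have hδs : δ * s = 1 / 16 := by rw [hδ]; field_simp
  have hδ1 : δ ≤ 1 / 16 := by nlinarith
  have hδ3 : (n:ℝ) * δ ^ 3 = δ / 256 := by
    calc (n:ℝ) * δ ^ 3 = (δ * s) ^ 2 * δ := by rw [← hss]; ring
      _ = δ / 256 := by rw [hδs]; ring
  have h1 : 576 * (n : ℝ) * δ ^ 3 ≤ 1 := by
    have : 576 * (n : ℝ) * δ ^ 3 = 576 * ((n:ℝ) * δ ^ 3) := by ring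
    rw [this, hδ3]; linarith
  have hv := h n δ (by omega) hδ0 hδ1 h1
  set y : ℝ := 16 * δ ^ 3 with hy
  have hy0 : 0 < y := by positivity
  have hy2 : y ≤ 1 / 2 := by
    have : δ ^ 3 ≤ (1/16) ^ 3 := pow_le_pow_left₀ hδ0.le hδ1 3
    rw [hy]; norm_num at this ⊢; linarith
  have hprod : 0 < (1 + δ) ^ (n.choose 2) * (1 - y) ^ (n ^ 3) := by
    apply mul_pos
    · exact pow_pos (by linarith) _
    · exact pow_pos (by linarith) _
  refine le_trans ?_ (Real.log_le_log hprod hv)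
  rw [Real.log_mul (pow_pos (by linarith) _).ne' (pow_pos (by linarith) _).ne', Real.log_pow,
    Real.log_pow]
  have hl1 : δ * (1 - δ / 2) ≤ Real.log (1 + δ) := by
    refine le_trans ?_ (Real.le_log_one_add_of_nonneg hδ0.le)
    rw [le_div_iff₀ (by linarith)]
    nlinarith [mul_pos hδ0 hδ0, mul_pos (mul_pos hδ0 hδ0) hδ0]
  have hl2 : - (2 * y) ≤ Real.log (1 - y) := by
    refine le_trans ?_ (Real.one_sub_inv_le_log_of_pos (by linarith))
    have h3 : (1 - y)⁻¹ ≤ 1 + 2 * y := by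
      rw [inv_le_comm₀ (by linarith) (by linarith)]
      have : (1 + 2 * y)⁻¹ = 1 / (1 + 2 * y) := by simp
      rw [this, div_le_iff₀ (by linarith)]
      nlinarith
    linarith
  have hc2 : ((n.choose 2 : ℕ) : ℝ) = (n:ℝ) * (n - 1) / 2 := Nat.cast_choose_two ℝ n
  have hc3 : ((n ^ 3 : ℕ) : ℝ) = (n:ℝ) ^ 3 := by push_cast; ring
  rw [hc2, hc3]
  -- lower bounds
  have e1 : (n:ℝ) * (n - 1) / 2 * (δ * (1 - δ / 2)) ≤ (n:ℝ) * (n - 1) / 2 * Real.log (1 + δ) :=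
    mul_le_mul_of_nonneg_left hl1 (by nlinarith)
  have e2 : (n:ℝ) ^ 3 * (-(2 * y)) ≤ (n:ℝ) ^ 3 * Real.log (1 - y) :=
    mul_le_mul_of_nonneg_left hl2 (by positivity)
  have e3 : (n:ℝ) ^ 3 * (2 * y) = (n:ℝ) * s / 128 := by
    -- 32 n^3 δ^3 = 32 n^2 δ/256 = n^2 δ / 8; n δ = s / 16
    have hnδ : (n:ℝ) * δ = s / 16 := by
      calc (n:ℝ) * δ = s * (δ * s) := by rw [← hss]; ring
        _ = s / 16 := by rw [hδs]; ring
    calc (n:ℝ) ^ 3 * (2 * y) = 32 * (n:ℝ) ^ 2 * ((n:ℝ) * δ ^ 3) := by rw [hy]; ring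
      _ = 32 * (n:ℝ) ^ 2 * (δ / 256) := by rw [hδ3]
      _ = (n:ℝ) * ((n:ℝ) * δ) / 8 := by ring
      _ = (n:ℝ) * s / 128 := by rw [hnδ]; ring
  have e4 : (n:ℝ) * s * (3 / 128) ≤ (n:ℝ) * (n - 1) / 2 * (δ * (1 - δ / 2)) := by
    have hnδ : (n:ℝ) * δ = s / 16 := by
      calc (n:ℝ) * δ = s * (δ * s) := by rw [← hss]; ring
        _ = s / 16 := by rw [hδs]; ring
    -- RHS = (n δ) (n-1)(1-δ/2)/2 = s (n-1)(1-δ/2)/32
    have : (n:ℝ) * (n - 1) / 2 * (δ * (1 - δ / 2)) = s * ((n - 1) * (1 - δ / 2)) / 32 := by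
      calc (n:ℝ) * (n - 1) / 2 * (δ * (1 - δ / 2)) = ((n:ℝ) * δ) * ((n - 1) * (1 - δ / 2)) / 2 := by
            ring
        _ = s * ((n - 1) * (1 - δ / 2)) / 32 := by rw [hnδ]; ring
    rw [this]
    have h5 : (3 / 4) * (n:ℝ) ≤ (n - 1) * (1 - δ / 2) := by
      nlinarith
    nlinarith
  linarith

end Pool.Agent.R894.RM
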