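import Pool.Agent.R894.RM.Defs

/-! Piece SYM for MP_1c6531_pr. -/

set_option autoImplicit false

open MeasureTheory Set
open scoped ENNReal

namespace Pool.Agent.R894.RM

namespace Sym

variable {n : ℕ}

/-- the action of a permutation on pairs -/
def tau (σ : Equiv.Perm (Fin n)) : Edge n ≃ Edge n where
  toFun e := ⟨Sym2.map σ e.1, fun h => e.2 ((Sym2.isDiag_map σ.injective).1 h)⟩
  invFun e := ⟨Sym2.map σ.symm e.1, fun h => e.2 ((Sym2.isDiag_map σ.symm.injective).1 h)⟩
  left_inv e := by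
    apply Subtype.ext
    show Sym2.map σ.symm (Sym2.map σ e.1) = e.1
    rw [Sym2.map_map]
    simp
  right_inv e := by
    apply Subtype.ext
    show Sym2.map σ (Sym2.map σ.symm e.1) = e.1
    rw [Sym2.map_map]
    simp

lemma tau_mk (σ : Equiv.Perm (Fin n)) (i j : Fin n) (h : i ≠ j) :
    tau σ (mk i j h) = mk (σ i) (σ j) (fun h' => h (σ.injective h')) := rfl

lemma mem_of (σ : Equiv.Perm (Fin n)) {d : Edge n → ℝ} (hd : d ∈ MM n) : d ∘ tau σ ∈ MM n := by
  refine ⟨fun e => hd.1 _, fun i j k hij hik hkj => ?_⟩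
  simp only [Function.comp_apply, tau_mk]
  exact hd.2 _ _ _ _ _ _

lemma mem_iff (σ : Equiv.Perm (Fin n)) {d : Edge n → ℝ} : d ∘ tau σ ∈ MM n ↔ d ∈ MM n := by
  refine ⟨fun h => ?_, mem_of σ⟩
  have h1 := mem_of σ.symm h
  have h2 : (d ∘ tau σ) ∘ tau σ.symm = d := by
    funext e
    show d (tau σ (tau σ.symm e)) = d e
    congr 1
    exact (tau σ).right_inv e
  rwa [h2] at h1

lemma exists_perm (e e' : Edge n) : ∃ σ : Equiv.Perm (Fin n), tau σ e = e' := by
  obtain ⟨e, he⟩ := e
  obtain ⟨e', he'⟩ := e'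
  induction e with | _ a b
  induction e' with | _ c d
  rw [Sym2.mk_isDiag_iff] at he he'
  set σ1 := Equiv.swap a c with h1
  have h2 : σ1 a = c := Equiv.swap_apply_left a c
  have h3 : σ1 b ≠ c := fun h => he (σ1.injective (h2.trans h.symm))
  refine ⟨σ1.trans (Equiv.swap (σ1 b) d), Subtype.ext ?_⟩
  show s((σ1.trans (Equiv.swap (σ1 b) d)) a, (σ1.trans (Equiv.swap (σ1 b) d)) b) = s(c, d)
  have h4 : (σ1.trans (Equiv.swap (σ1 b) d)) a = c := by
    rw [Equiv.trans_apply, h2]
    exact Equiv.swap_apply_of_ne_of_ne h3.symm he'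
  have h5 : (σ1.trans (Equiv.swap (σ1 b) d)) b = d := by
    rw [Equiv.trans_apply]
    exact Equiv.swap_apply_left _ _
  rw [h4, h5]

end Sym

open Pool.Agent.R894.RM.Sym

theorem sym : S_SYM := by
  intro n e e'
  obtain ⟨σ, hσ⟩ := exists_perm e e'
  set Φ : (Edge n → ℝ) ≃ᵐ (Edge n → ℝ) := MeasurableEquiv.piCongrLeft (fun _ => ℝ) (tau σ).symm
    with hΦ
  have hmp : MeasurePreserving Φ volume volume :=
    volume_measurePreserving_piCongrLeft (fun _ => ℝ) (tau σ).symm
  have hval : ∀ d, Φ d = d ∘ tau σ := by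
    intro d
    funext i
    rw [hΦ, MeasurableEquiv.coe_piCongrLeft]
    have := Equiv.piCongrLeft_apply_apply (fun _ : Edge n => ℝ) (tau σ).symm d (tau σ i)
    simpa using this
  constructor
  · intro t
    have h1 : Φ ⁻¹' (MM n ∩ {d | d e < t}) = MM n ∩ {d | d e' < t} := by
      ext d
      simp only [mem_preimage, mem_inter_iff, mem_ofPred_eq, hval]
      rw [mem_iff, Function.comp_apply, hσ]
    rw [← h1, hmp.measure_preimage_equiv]
  · have h1 : Φ ⁻¹' (MM n) = MM n := by
      ext d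
      simp only [mem_preimage, hval]
      exact mem_iff σ
    have h2 := hmp.setIntegral_preimage_emb Φ.measurableEmbedding (fun d => max (1 - d e) 0) (MM n)
    rw [h1] at h2
    rw [← h2]
    simp only [hval, Function.comp_apply, hσ]

end Pool.Agent.R894.RM

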