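import Pool.Agent.R894.RM.Defs

set_option autoImplicit false

open MeasureTheory Set
open scoped ENNReal

namespace Pool.Agent.R894.RM

namespace VOLaux

/-- uniform probability on `[1-δ, 2]` -/
noncomputable def mu (δ : ℝ) : Measure ℝ :=
  (ENNReal.ofReal (1 + δ))⁻¹ • (volume : Measure ℝ).restrict (Icc (1 - δ) 2)

lemma mu_apply (δ : ℝ) (s : Set ℝ) (hs : MeasurableSet s) :
    mu δ s = (ENNReal.ofReal (1 + δ))⁻¹ * volume (s ∩ Icc (1 - δ) 2) := by
  unfold mu
  rw [Measure.smul_apply, smul_eq_mul, Measure.restrict_apply hs]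

lemma mu_prob {δ : ℝ} (hδ : 0 < δ) : IsProbabilityMeasure (mu δ) := by
  constructor
  rw [mu_apply δ univ MeasurableSet.univ, univ_inter, Real.volume_Icc]
  rw [show (2 : ℝ) - (1 - δ) = 1 + δ by ring]
  exact ENNReal.inv_mul_cancel (by simpa using by linarith) ENNReal.ofReal_ne_top

lemma mu_Ici {δ : ℝ} (hδ : 0 < δ) : (mu δ (Ici (2 - 2 * δ))).toReal ≤ 2 * δ := by
  have h1 : mu δ (Ici (2 - 2 * δ)) ≤ ENNReal.ofReal (2 * δ) := by
    rw [mu_apply δ _ measurableSet_Ici]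
    have hc : (ENNReal.ofReal (1 + δ))⁻¹ ≤ 1 := by
      rw [ENNReal.inv_le_one]
      rw [← ENNReal.ofReal_one]
      exact ENNReal.ofReal_le_ofReal (by linarith)
    calc (ENNReal.ofReal (1 + δ))⁻¹ * volume (Ici (2 - 2 * δ) ∩ Icc (1 - δ) 2)
        ≤ 1 * volume (Icc (2 - 2 * δ) 2) := by
          gcongr
          rintro x ⟨hx1, hx2⟩
          exact ⟨hx1, hx2.2⟩
      _ = ENNReal.ofReal (2 * δ) := by
          rw [one_mul, Real.volume_Icc]; congr 1; ring
  calc (mu δ (Ici (2 - 2 * δ))).toReal ≤ (ENNReal.ofReal (2 * δ)).toReal :=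
        ENNReal.toReal_mono ENNReal.ofReal_ne_top h1
    _ = 2 * δ := ENNReal.toReal_ofReal (by linarith)

lemma mu_Iic {δ : ℝ} (hδ : 0 < δ) : (mu δ (Iic (1 + δ))).toReal ≤ 2 * δ := by
  have h1 : mu δ (Iic (1 + δ)) ≤ ENNReal.ofReal (2 * δ) := by
    rw [mu_apply δ _ measurableSet_Iic]
    have hc : (ENNReal.ofReal (1 + δ))⁻¹ ≤ 1 := by
      rw [ENNReal.inv_le_one]
      rw [← ENNReal.ofReal_one]
      exact ENNReal.ofReal_le_ofReal (by linarith)
    calc (ENNReal.ofReal (1 + δ))⁻¹ * volume (Iic (1 + δ) ∩ Icc (1 - δ) 2)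
        ≤ 1 * volume (Icc (1 - δ) (1 + δ)) := by
          gcongr
          rintro x ⟨hx1, hx2⟩
          exact ⟨hx2.1, hx1⟩
      _ = ENNReal.ofReal (2 * δ) := by
          rw [one_mul, Real.volume_Icc]; congr 1; ring
  calc (mu δ (Iic (1 + δ))).toReal ≤ (ENNReal.ofReal (2 * δ)).toReal :=
        ENNReal.toReal_mono ENNReal.ofReal_ne_top h1
    _ = 2 * δ := ENNReal.toReal_ofReal (by linarith)

lemma pi_mu (κ : Type) [Fintype κ] (δ : ℝ) (hδ : 0 < δ) :
    Measure.pi (fun _ : κ => mu δ) =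
      ((ENNReal.ofReal (1 + δ))⁻¹) ^ (Fintype.card κ) •
        (volume : Measure (κ → ℝ)).restrict (Set.pi univ (fun _ => Icc (1 - δ) 2)) := by
  have := mu_prob hδ
  apply Measure.pi_eq
  intro s hs
  rw [Measure.smul_apply, smul_eq_mul, Measure.restrict_apply (MeasurableSet.univ_pi hs),
    ← Set.pi_inter_distrib, volume_pi_pi]
  simp_rw [mu_apply δ _ (hs _)]
  rw [Finset.prod_mul_distrib, Finset.prod_const, Finset.card_univ]

/-- index set of the events -/
abbrev Tr (n : ℕ) : Type :=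
  {t : Fin n × Fin n × Fin n // t.1 ≠ t.2.1 ∧ t.1 ≠ t.2.2 ∧ t.2.2 ≠ t.2.1}

def E1 {n : ℕ} (t : Tr n) : Edge n := mk t.1.1 t.1.2.1 t.2.1
def E2 {n : ℕ} (t : Tr n) : Edge n := mk t.1.1 t.1.2.2 t.2.2.1
def E3 {n : ℕ} (t : Tr n) : Edge n := mk t.1.2.2 t.1.2.1 t.2.2.2

def TT {n : ℕ} (t : Tr n) : Finset (Edge n) := {E1 t, E2 t, E3 t}

def A {n : ℕ} (δ : ℝ) (t : Tr n) : Set (Edge n → ℝ) :=
  {d | 2 - 2 * δ ≤ d (E1 t) ∧ d (E2 t) ≤ 1 + δ ∧ d (E3 t) ≤ 1 + δ}

lemma E12 {n : ℕ} (t : Tr n) : E1 t ≠ E2 t := by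
  obtain ⟨⟨i, j, k⟩, h1, h2, h3⟩ := t
  simp only [ne_eq] at h1 h2 h3
  simp only [E1, E2, mk, ne_eq, Subtype.mk.injEq, Sym2.eq_iff, not_or, not_and]
  refine ⟨fun _ h => h3 h.symm, fun h => absurd h h2⟩

lemma E13 {n : ℕ} (t : Tr n) : E1 t ≠ E3 t := by
  obtain ⟨⟨i, j, k⟩, h1, h2, h3⟩ := t
  simp only [ne_eq] at h1 h2 h3
  simp only [E1, E3, mk, ne_eq, Subtype.mk.injEq, Sym2.eq_iff, not_or, not_and]
  refine ⟨fun h => absurd h h2, fun h => absurd h h1⟩

lemma E23 {n : ℕ} (t : Tr n) : E2 t ≠ E3 t := by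
  obtain ⟨⟨i, j, k⟩, h1, h2, h3⟩ := t
  simp only [ne_eq] at h1 h2 h3
  simp only [E2, E3, mk, ne_eq, Subtype.mk.injEq, Sym2.eq_iff, not_or, not_and]
  refine ⟨fun h => absurd h h2, fun h => absurd h h1⟩

lemma A_meas {n : ℕ} (δ : ℝ) (t : Tr n) : MeasurableSet (A δ t) := by
  unfold A
  apply MeasurableSet.inter
  · exact measurableSet_le measurable_const (measurable_pi_apply _)
  · apply MeasurableSet.inter
    · exact measurableSet_le (measurable_pi_apply _) measurable_const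
    · exact measurableSet_le (measurable_pi_apply _) measurable_const

lemma A_prob {n : ℕ} (h2 : S_IND) {δ : ℝ} (hδ : 0 < δ) (t : Tr n) :
    (Measure.pi (fun _ : Edge n => mu δ) (A δ t)).toReal ≤ 8 * δ ^ 3 := by
  have := mu_prob hδ
  have hev : ∀ (e : Edge n) (s : Set ℝ), MeasurableSet s →
      Measure.pi (fun _ : Edge n => mu δ) {d | d e ∈ s} = mu δ s := by
    intro e s hs
    have := (measurePreserving_eval (fun _ : Edge n => mu δ) e).measure_preimage
      hs.nullMeasurableSet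
    exact this
  have m1 : MeasurableSet {d : Edge n → ℝ | d (E1 t) ∈ Ici (2 - 2 * δ)} :=
    measurableSet_le measurable_const (measurable_pi_apply _)
  have m2 : MeasurableSet {d : Edge n → ℝ | d (E2 t) ∈ Iic (1 + δ)} :=
    measurableSet_le (measurable_pi_apply _) measurable_const
  have m3 : MeasurableSet {d : Edge n → ℝ | d (E3 t) ∈ Iic (1 + δ)} :=
    measurableSet_le (measurable_pi_apply _) measurable_const
  have hA : A δ t = {d : Edge n → ℝ | d (E1 t) ∈ Ici (2 - 2 * δ)} ∩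
      ({d : Edge n → ℝ | d (E2 t) ∈ Iic (1 + δ)} ∩ {d : Edge n → ℝ | d (E3 t) ∈ Iic (1 + δ)}) := by
    ext d; simp [A]
  have hind1 := h2 (Edge n) (mu δ) {E1 t} {d : Edge n → ℝ | d (E1 t) ∈ Ici (2 - 2 * δ)}
    ({d : Edge n → ℝ | d (E2 t) ∈ Iic (1 + δ)} ∩ {d : Edge n → ℝ | d (E3 t) ∈ Iic (1 + δ)})
    m1 (m2.inter m3)
    (by
      intro x y hxy
      have := hxy (E1 t) (by simp)
      simp [this])
    (by
      intro x y hxy
      have h2' := hxy (E2 t) (by simpa using (E12 t).symm)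
      have h3' := hxy (E3 t) (by simpa using (E13 t).symm)
      simp [h2', h3'])
  have hind2 := h2 (Edge n) (mu δ) {E2 t} {d : Edge n → ℝ | d (E2 t) ∈ Iic (1 + δ)}
    {d : Edge n → ℝ | d (E3 t) ∈ Iic (1 + δ)} m2 m3
    (by
      intro x y hxy
      have := hxy (E2 t) (by simp)
      simp [this])
    (by
      intro x y hxy
      have h3' := hxy (E3 t) (by simpa using (E23 t).symm)
      simp [h3'])
  rw [hA, hind1, hind2, hev _ _ measurableSet_Ici, hev _ _ measurableSet_Iic,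
    hev _ _ measurableSet_Iic, ENNReal.toReal_mul, ENNReal.toReal_mul]
  have a1 := mu_Ici hδ
  have a2 := mu_Iic hδ
  have b1 : 0 ≤ (mu δ (Ici (2 - 2 * δ))).toReal := ENNReal.toReal_nonneg
  have b2 : 0 ≤ (mu δ (Iic (1 + δ))).toReal := ENNReal.toReal_nonneg
  calc (mu δ (Ici (2 - 2 * δ))).toReal * ((mu δ (Iic (1 + δ))).toReal *
        (mu δ (Iic (1 + δ))).toReal) ≤ (2 * δ) * ((2 * δ) * (2 * δ)) := by gcongr
    _ = 8 * δ ^ 3 := by ring

/-- triples one of whose edges is `{a,b}` -/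
def U {n : ℕ} (a b : Fin n) : Finset (Fin n × Fin n × Fin n) :=
  ((Finset.univ.image fun c : Fin n => (a, b, c)) ∪ (Finset.univ.image fun c : Fin n => (b, a, c))) ∪
  (((Finset.univ.image fun c : Fin n => (a, c, b)) ∪ (Finset.univ.image fun c : Fin n => (b, c, a))) ∪
  ((Finset.univ.image fun c : Fin n => (c, b, a)) ∪ (Finset.univ.image fun c : Fin n => (c, a, b))))

lemma U_card {n : ℕ} (a b : Fin n) : (U a b).card ≤ 6 * n := by
  unfold U
  have him : ∀ f : Fin n → Fin n × Fin n × Fin n, (Finset.univ.image f).card ≤ n := by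
    intro f
    calc (Finset.univ.image f).card ≤ (Finset.univ : Finset (Fin n)).card :=
          Finset.card_image_le
      _ = n := by simp
  refine (Finset.card_union_le _ _).trans ?_
  have h1 := (Finset.card_union_le (Finset.univ.image fun c : Fin n => (a, b, c))
    (Finset.univ.image fun c : Fin n => (b, a, c)))
  have h2 := (Finset.card_union_le (Finset.univ.image fun c : Fin n => (a, c, b))
    (Finset.univ.image fun c : Fin n => (b, c, a)))
  have h3 := (Finset.card_union_le (Finset.univ.image fun c : Fin n => (c, b, a))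
    (Finset.univ.image fun c : Fin n => (c, a, b)))
  have h4 := Finset.card_union_le ((Finset.univ.image fun c : Fin n => (a, c, b)) ∪
    (Finset.univ.image fun c : Fin n => (b, c, a))) ((Finset.univ.image fun c : Fin n => (c, b, a)) ∪
    (Finset.univ.image fun c : Fin n => (c, a, b)))
  have i1 := him (fun c => (a, b, c))
  have i2 := him (fun c => (b, a, c))
  have i3 := him (fun c => (a, c, b))
  have i4 := him (fun c => (b, c, a))
  have i5 := him (fun c => (c, b, a))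
  have i6 := him (fun c => (c, a, b))
  omega

lemma mem_U {n : ℕ} (a b : Fin n) (hab : a ≠ b) (t : Tr n)
    (h : mk a b hab ∈ TT t) : t.1 ∈ U a b := by
  obtain ⟨⟨i, j, k⟩, h1, h2, h3⟩ := t
  simp only [TT, E1, E2, E3, mk, Finset.mem_insert, Finset.mem_singleton, Subtype.mk.injEq,
    Sym2.eq_iff] at h
  simp only [U, Finset.mem_union, Finset.mem_image, Finset.mem_univ, true_and, Prod.mk.injEq]
  rcases h with (⟨rfl, rfl⟩ | ⟨rfl, rfl⟩) | (⟨rfl, rfl⟩ | ⟨rfl, rfl⟩) | (⟨rfl, rfl⟩ | ⟨rfl, rfl⟩)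
  · exact Or.inl (Or.inl ⟨k, by simp⟩)
  · exact Or.inl (Or.inr ⟨k, by simp⟩)
  · exact Or.inr (Or.inl (Or.inl ⟨j, by simp⟩))
  · exact Or.inr (Or.inl (Or.inr ⟨j, by simp⟩))
  · exact Or.inr (Or.inr (Or.inl ⟨i, by simp⟩))
  · exact Or.inr (Or.inr (Or.inr ⟨i, by simp⟩))

/-- neighbours -/
def G {n : ℕ} (t : Tr n) : Finset (Tr n) :=
  Finset.univ.filter (fun s => ¬ Disjoint (TT s) (TT t))

lemma G_card {n : ℕ} (t : Tr n) : (G t).card ≤ 18 * n := by
  have hsub : (G t).image Subtype.val ⊆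
      U t.1.1 t.1.2.1 ∪ (U t.1.1 t.1.2.2 ∪ U t.1.2.2 t.1.2.1) := by
    intro x hx
    rw [Finset.mem_image] at hx
    obtain ⟨s, hs, rfl⟩ := hx
    simp only [G, Finset.mem_filter, Finset.mem_univ, true_and] at hs
    rw [Finset.not_disjoint_iff] at hs
    obtain ⟨e, he1, he2⟩ := hs
    simp only [TT, Finset.mem_insert, Finset.mem_singleton] at he2
    rw [Finset.mem_union, Finset.mem_union]
    rcases he2 with rfl | rfl | rfl
    · exact Or.inl (mem_U _ _ _ s he1)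
    · exact Or.inr (Or.inl (mem_U _ _ _ s he1))
    · exact Or.inr (Or.inr (mem_U _ _ _ s he1))
  have h1 := Finset.card_le_card hsub
  rw [Finset.card_image_of_injective _ Subtype.val_injective] at h1
  have h2 := Finset.card_union_le (U t.1.1 t.1.2.1) (U t.1.1 t.1.2.2 ∪ U t.1.2.2 t.1.2.1)
  have h3 := Finset.card_union_le (U t.1.1 t.1.2.2) (U t.1.2.2 t.1.2.1)
  have u1 := U_card t.1.1 t.1.2.1
  have u2 := U_card t.1.1 t.1.2.2
  have u3 := U_card t.1.2.2 t.1.2.1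
  omega

lemma A_indep {n : ℕ} (h2 : S_IND) {δ : ℝ} (hδ : 0 < δ) (t : Tr n) (S : Finset (Tr n))
    (hS : ∀ s ∈ S, s ∉ G t) :
    Measure.pi (fun _ : Edge n => mu δ) (A δ t ∩ ⋂ s ∈ S, (A δ s)ᶜ) =
      Measure.pi (fun _ : Edge n => mu δ) (A δ t) *
        Measure.pi (fun _ : Edge n => mu δ) (⋂ s ∈ S, (A δ s)ᶜ) := by
  have := mu_prob hδ
  apply h2 (Edge n) (mu δ) (TT t)
  · exact A_meas δ t
  · exact Finset.measurableSet_biInter S (fun s _ => (A_meas δ s).compl)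
  · intro x y hxy
    have e1 := hxy (E1 t) (by simp [TT])
    have e2 := hxy (E2 t) (by simp [TT])
    have e3 := hxy (E3 t) (by simp [TT])
    simp only [A, mem_ofPred_eq, e1, e2, e3]
  · intro x y hxy
    have key : ∀ s ∈ S, (x ∈ A δ s ↔ y ∈ A δ s) := by
      intro s hs
      have hd : Disjoint (TT s) (TT t) := by
        have := hS s hs
        simpa [G] using this
      rw [Finset.disjoint_left] at hd
      have e1 := hxy (E1 s) (hd (by simp [TT]))
      have e2 := hxy (E2 s) (hd (by simp [TT]))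
      have e3 := hxy (E3 s) (hd (by simp [TT]))
      simp only [A, mem_ofPred_eq, e1, e2, e3]
    simp only [mem_iInter, mem_compl_iff]
    constructor
    · intro h s hs hy
      exact h s hs ((key s hs).2 hy)
    · intro h s hs hx
      exact h s hs ((key s hs).1 hx)

lemma incl {n : ℕ} {δ : ℝ} (hδ : 0 < δ) (hδ' : δ ≤ 1 / 16) :
    (⋂ s : Tr n, (A δ s)ᶜ) ∩ Set.pi univ (fun _ => Icc (1 - δ) 2) ⊆ MM n := by
  rintro d ⟨hd1, hd2⟩
  simp only [mem_iInter, mem_compl_iff] at hd1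
  have hd : ∀ e : Edge n, 1 - δ ≤ d e ∧ d e ≤ 2 := fun e => hd2 e (mem_univ e)
  refine ⟨fun e => ⟨by linarith [(hd e).1], (hd e).2⟩, ?_⟩
  intro i j k hij hik hkj
  by_contra hcon
  push Not at hcon
  apply hd1 ⟨(i, j, k), hij, hik, hkj⟩
  refine ⟨?_, ?_, ?_⟩
  · show 2 - 2 * δ ≤ d (mk i j hij)
    linarith [(hd (mk i k hik)).1, (hd (mk k j hkj)).1]
  · show d (mk i k hik) ≤ 1 + δ
    linarith [(hd (mk i j hij)).2, (hd (mk k j hkj)).1]
  · show d (mk k j hkj) ≤ 1 + δ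
    linarith [(hd (mk i j hij)).2, (hd (mk i k hik)).1]

lemma MM_lt_top (n : ℕ) : volume (MM n) < ⊤ := by
  have h : MM n ⊆ Set.pi univ (fun _ => Icc (0 : ℝ) 2) := by
    intro d hd e _
    exact ⟨(hd.1 e).1.le, (hd.1 e).2⟩
  exact (measure_mono h).trans_lt (isCompact_univ_pi fun _ => isCompact_Icc).measure_lt_top

end VOLaux

open VOLaux

theorem vol (h1 : S_LLL) (h2 : S_IND) : S_VOL := by
  intro n δ hn hδ hδ' hnδ
  have := mu_prob hδ
  have hx0 : (0 : ℝ) < 16 * δ ^ 3 := by positivity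
  have hx1 : 16 * δ ^ 3 < 1 := by
    have : δ ^ 3 ≤ (1 / 16) ^ 3 := by gcongr
    nlinarith
  have hp : 8 * δ ^ 3 ≤ 16 * δ ^ 3 * (1 - 16 * δ ^ 3) ^ (18 * n) := by
    have hb := one_add_mul_le_pow (a := -(16 * δ ^ 3)) (by linarith) (18 * n)
    have hb' : (1 : ℝ) / 2 ≤ (1 - 16 * δ ^ 3) ^ (18 * n) := by
      have : (1 : ℝ) + -(16 * δ ^ 3) = 1 - 16 * δ ^ 3 := by ring
      rw [this] at hb
      refine le_trans ?_ hb
      push_cast
      nlinarith
    calc 8 * δ ^ 3 = 16 * δ ^ 3 * (1 / 2) := by ring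
      _ ≤ _ := by gcongr
  have hL := h1 (Edge n → ℝ) (Measure.pi (fun _ : Edge n => mu δ)) (Tr n) (A δ) G (18 * n)
    (8 * δ ^ 3) (16 * δ ^ 3) (A_meas δ) hx0 hx1 (A_prob h2 hδ) G_card hp
    (fun t S hS _ => A_indep h2 hδ t S hS)
  have hcard : Fintype.card (Tr n) ≤ n ^ 3 := by
    refine (Fintype.card_subtype_le _).trans ?_
    simp only [Fintype.card_prod, Fintype.card_fin]
    exact le_of_eq (by ring)
  have hL2 : (1 - 16 * δ ^ 3) ^ (n ^ 3) ≤ (1 - 16 * δ ^ 3) ^ (Fintype.card (Tr n)) :=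
    pow_le_pow_of_le_one (by linarith) (by linarith) hcard
  have hcardE : Fintype.card (Edge n) = n.choose 2 := by
    rw [Sym2.card_subtype_not_diag, Fintype.card_fin]
  have hmeas : MeasurableSet (⋂ s : Tr n, (A δ s)ᶜ) :=
    MeasurableSet.iInter (fun s => (A_meas δ s).compl)
  have hP : (Measure.pi (fun _ : Edge n => mu δ) (⋂ s : Tr n, (A δ s)ᶜ)).toReal ≤
      ((1 + δ)⁻¹) ^ (n.choose 2) * (volume (MM n)).toReal := by
    rw [pi_mu (Edge n) δ hδ, Measure.smul_apply, smul_eq_mul, Measure.restrict_apply hmeas,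
      ENNReal.toReal_mul, ENNReal.toReal_pow, ENNReal.toReal_inv,
      ENNReal.toReal_ofReal (by linarith), hcardE]
    gcongr
    · exact (MM_lt_top n).ne
    · exact incl hδ hδ'
  have hfin := (hL2.trans hL).trans hP
  have hpos : 0 < (1 + δ) ^ (n.choose 2) := by positivity
  calc (1 + δ) ^ (n.choose 2) * (1 - 16 * δ ^ 3) ^ (n ^ 3)
      ≤ (1 + δ) ^ (n.choose 2) * (((1 + δ)⁻¹) ^ (n.choose 2) * (volume (MM n)).toReal) := by
        gcongr
    _ = (volume (MM n)).toReal := by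
        rw [← mul_assoc, ← mul_pow, mul_inv_cancel₀ (by linarith), one_pow, one_mul]

end Pool.Agent.R894.RM
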