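import Pool.Agent.R894.RM.BAS
import Pool.Agent.R894.RM.BM
import Pool.Agent.R894.RM.CORE
import Pool.Agent.R894.RM.FIN
import Pool.Agent.R894.RM.GIB
import Pool.Agent.R894.RM.IND
import Pool.Agent.R894.RM.LLL
import Pool.Agent.R894.RM.NUM
import Pool.Agent.R894.RM.SYM
import Pool.Agent.R894.RM.VOL

set_option autoImplicit false

open MeasureTheory Set
open scoped ENNReal

namespace Pool.Agent.R894.RM

theorem allfin : S_FIN := fin gib (core bm) sym bas (num (vol lll ind))

/-- for every `n`, all pairs have positive probability -/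
theorem small (n : ℕ) : ∃ c : ℝ, 0 < c ∧ ∀ e : Edge n,
    c / Real.sqrt n ≤ (volume (MM n ∩ {d | d e < 1})).toReal / (volume (MM n)).toReal := by
  obtain ⟨hMm, hMt, hMc, hMp⟩ := bas n
  have hpos : ∀ e : Edge n, 0 < (volume (MM n ∩ {d | d e < 1})).toReal / (volume (MM n)).toReal := by
    intro e
    have h1 : volume (MM n) ≠ 0 := fun h0 => hMp e (measure_mono_null inter_subset_left h0)
    have h2 : volume (MM n ∩ {d | d e < 1}) ≠ ⊤ :=
      ne_top_of_le_ne_top hMt (measure_mono inter_subset_left)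
    exact div_pos (ENNReal.toReal_pos (hMp e) h2) (ENNReal.toReal_pos h1 hMt)
  rcases isEmpty_or_nonempty (Edge n) with he | he
  · exact ⟨1, one_pos, fun e => (he.false e).elim⟩
  · obtain ⟨e0, h0⟩ := Finite.exists_min (fun e : Edge n =>
      (volume (MM n ∩ {d | d e < 1})).toReal / (volume (MM n)).toReal)
    refine ⟨(volume (MM n ∩ {d | d e0 < 1})).toReal / (volume (MM n)).toReal, hpos e0,
      fun e => le_trans ?_ (h0 e)⟩
    rcases Nat.eq_zero_or_pos n with hn | hn
    · subst hn; simp; positivity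
    · apply div_le_self (hpos e0).le
      rw [Real.one_le_sqrt]
      exact_mod_cast hn

theorem everyN : ∃ c : ℝ, 0 < c ∧ ∀ n : ℕ, ∀ e : Edge n,
    c / Real.sqrt n ≤ (volume (MM n ∩ {d | d e < 1})).toReal / (volume (MM n)).toReal := by
  obtain ⟨c, hc, n0, hn0⟩ := allfin
  have key : ∀ m : ℕ, ∃ c : ℝ, 0 < c ∧ ∀ n : ℕ, n < m → ∀ e : Edge n,
      c / Real.sqrt n ≤ (volume (MM n ∩ {d | d e < 1})).toReal / (volume (MM n)).toReal := by
    intro m
    induction m with
    | zero => exact ⟨1, one_pos, fun n hn => absurd hn (Nat.not_lt_zero n)⟩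
    | succ m ih =>
      obtain ⟨c1, hc1, h1⟩ := ih
      obtain ⟨c2, hc2, h2⟩ := small m
      refine ⟨min c1 c2, lt_min hc1 hc2, fun n hn e => ?_⟩
      rcases Nat.lt_succ_iff_lt_or_eq.mp hn with h | h
      · exact le_trans (by gcongr; exact min_le_left _ _) (h1 n h e)
      · subst h
        exact le_trans (by gcongr; exact min_le_right _ _) (h2 e)
  obtain ⟨c', hc', h'⟩ := key n0
  refine ⟨min c c', lt_min hc hc', fun n e => ?_⟩
  rcases lt_or_ge n n0 with h | h
  · exact le_trans (by gcongr; exact min_le_right _ _) (h' n h e)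
  · exact le_trans (by gcongr; exact min_le_left _ _) (hn0 n h e).2

end Pool.Agent.R894.RM
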