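import Pool.Agent.R894.RM.Defs

/-! Piece BAS for MP_1c6531_pr. -/

set_option autoImplicit false

open MeasureTheory Set
open scoped ENNReal

namespace Pool.Agent.R894.RM

theorem bas : S_BAS := by
  intro n
  refine ⟨?_, ?_, ?_, ?_⟩
  · have h : MM n = (⋂ e : Edge n, ({d | 0 < d e} ∩ {d | d e ≤ 2})) ∩
        ⋂ (i : Fin n) (j : Fin n) (k : Fin n) (hij : i ≠ j) (hik : i ≠ k) (hkj : k ≠ j),
          {d | d (mk i j hij) ≤ d (mk i k hik) + d (mk k j hkj)} := by
      ext d
      unfold MM
      simp only [mem_ofPred_eq, mem_inter_iff, mem_iInter]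
    rw [h]
    refine MeasurableSet.inter (MeasurableSet.iInter fun e => MeasurableSet.inter ?_ ?_) ?_
    · exact measurableSet_lt measurable_const (measurable_pi_apply e)
    · exact measurableSet_le (measurable_pi_apply e) measurable_const
    · refine MeasurableSet.iInter fun i => MeasurableSet.iInter fun j => MeasurableSet.iInter fun k =>
        MeasurableSet.iInter fun hij => MeasurableSet.iInter fun hik => MeasurableSet.iInter fun hkj => ?_
      have h1 : Measurable fun d : Edge n → ℝ => d (mk i k hik) + d (mk k j hkj) :=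
        (measurable_pi_apply (mk i k hik)).add (measurable_pi_apply (mk k j hkj))
      exact measurableSet_le (measurable_pi_apply _) h1
  · have hsub : MM n ⊆ Icc (fun _ : Edge n => (0 : ℝ)) (fun _ => 2) := by
      intro d hd
      exact ⟨fun e => (hd.1 e).1.le, fun e => (hd.1 e).2⟩
    exact ((measure_mono hsub).trans_lt (isCompact_Icc.measure_lt_top)).ne
  · intro a ha b hb
    refine ⟨fun e => ?_, fun i j k hij hik hkj => ?_⟩
    · have h1 := ha.1 e
      have h2 := hb.1 e
      constructor <;> dsimp only <;> linarith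
    · have h1 := ha.2 i j k hij hik hkj
      have h2 := hb.2 i j k hij hik hkj
      dsimp only
      linarith
  · intro e
    have hopen : IsOpen (Set.pi univ fun _ : Edge n => Ioo (3 / 5 : ℝ) (9 / 10)) :=
      isOpen_set_pi finite_univ fun _ _ => isOpen_Ioo
    have hne : (Set.pi univ fun _ : Edge n => Ioo (3 / 5 : ℝ) (9 / 10)).Nonempty :=
      ⟨fun _ => 7 / 10, fun _ _ => by constructor <;> norm_num⟩
    have hpos := hopen.measure_pos volume hne
    have hsub : (Set.pi univ fun _ : Edge n => Ioo (3 / 5 : ℝ) (9 / 10)) ⊆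
        MM n ∩ {d | d e < 1} := by
      intro d hd
      have h : ∀ e, 3 / 5 < d e ∧ d e < 9 / 10 := fun e => hd e (mem_univ e)
      refine ⟨⟨fun e => ⟨?_, ?_⟩, fun i j k hij hik hkj => ?_⟩, ?_⟩
      · linarith [(h e).1]
      · linarith [(h e).2]
      · linarith [(h (mk i j hij)).2, (h (mk i k hik)).1, (h (mk k j hkj)).1]
      · show d e < 1
        linarith [(h e).2]
    exact (hpos.trans_le (measure_mono hsub)).ne'

end Pool.Agent.R894.RM

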